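import Pool.Agent.K3h91.EA.Num

/-!
# Horns and regions with necks: the final statements in the terms of the library
-/

set_option autoImplicit false

open Finset MeasureTheory ProbabilityTheory

namespace Pool.Agent.K3h91.EA

open Pool.Agent.TH761.EA Pool.Agent.TH761.EB

variable (μ : Measure ℝ) [IsProbabilityMeasure μ]

/-- the horn, from blocks -/
theorem horn_gen {k : ℕ} {w : ℕ → ℕ} (hw : Monotone w) {len : ℕ → ℕ} {Φ : ℕ → ℝ}
    (hat : ∀ x, μ {x} = 0)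
    (hΦ : ∀ m : ℕ, 2 * Real.log ((m : ℝ) + 1) ≤ Φ m) (hB : Blocks μ k len Φ)
    (hgr : ∀ᶠ n : ℕ in Filter.atTop, 4 * Φ (w n) ≤ Real.log n) :
    ∀ᵐ J ∂(Measure.infinitePi fun _ : LB k => μ), ∃ σ, {ρ | GS aa bb (horn k w) J ρ} = {σ, -σ} :=
  unique_fam μ (horn_fin w)
    (fun D hD hDR => (horn_front hw D hD hDR).imp fun _ he => Or.inl he) hat
    (horn_fam μ hw hΦ hB hgr)

lemma log_le_pow (m : ℕ) (k : ℕ) : Real.log ((m : ℝ) + 1) ≤ ((m : ℝ) + 1) ^ (k + 1) := by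
  have h0 : (0 : ℝ) ≤ m := Nat.cast_nonneg m
  have h1 : Real.log ((m : ℝ) + 1) ≤ (m : ℝ) + 1 := by
    have := Real.log_le_sub_one_of_pos (x := (m : ℝ) + 1) (by linarith)
    linarith
  exact h1.trans (le_self_pow₀ (by linarith) (by omega))

theorem horn_long {k : ℕ} (hat : ∀ x, μ {x} = 0) {C : ℝ} (hC : 2 ≤ C)
    (hB : Blocks μ k (fun m => 4 * m + 2) (fun m => C * ((m : ℝ) + 1) ^ (k + 1)))
    {w : ℕ → ℕ} (hw : Monotone w)
    (hgr : ∀ᶠ n : ℕ in Filter.atTop, (8 * C * 2 ^ (k + 1)) * (w n : ℝ) ^ (k + 1) ≤ Real.log n) :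
    ∀ᵐ J ∂(Measure.infinitePi fun _ : LB k => μ), ∃ σ,
      {ρ | GS aa bb (horn k w) J ρ} = {σ, -σ} := by
  refine horn_gen μ hw hat (fun m => ?_) hB ?_
  · have h1 := log_le_pow m k
    have h2 : 0 ≤ ((m : ℝ) + 1) ^ (k + 1) := by positivity
    nlinarith
  · have hlog : ∀ᶠ n : ℕ in Filter.atTop, 8 * C * 2 ^ (k + 1) ≤ Real.log n :=
      (Real.tendsto_log_atTop.comp tendsto_natCast_atTop_atTop).eventually_ge_atTop _
    filter_upwards [hgr, hlog] with n h1 h2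
    have h3 := two_pow_bound (w n : ℝ) (Nat.cast_nonneg _) (k + 1)
    have h4 : 4 * (C * ((w n : ℝ) + 1) ^ (k + 1)) ≤
        4 * (C * (2 ^ (k + 1) * ((w n : ℝ) ^ (k + 1) + 1))) := by
      have : 0 ≤ 4 * C := by linarith
      nlinarith [mul_le_mul_of_nonneg_left h3 this]
    have h5 : 4 * (C * (2 ^ (k + 1) * ((w n : ℝ) ^ (k + 1) + 1))) =
        ((8 * C * 2 ^ (k + 1)) * (w n : ℝ) ^ (k + 1) + 8 * C * 2 ^ (k + 1)) / 2 := by ring
    linarith

lemma log_two_le_log (m : ℕ) (hm : 1 ≤ m) :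
    Real.log ((m : ℝ) + 2) ≤ 2 * Real.log ((m : ℝ) + 1) := by
  have h1 : (1 : ℝ) ≤ m := by exact_mod_cast hm
  have h2 : (m : ℝ) + 2 ≤ ((m : ℝ) + 1) ^ 2 := by nlinarith
  have h3 := Real.log_le_log (by linarith) h2
  rw [Real.log_pow] at h3
  exact_mod_cast h3

lemma short_bound (k m : ℕ) : ((m : ℝ) + 1) ^ k * Real.log ((m : ℝ) + 2) ≤
    2 ^ (k + 1) * ((m : ℝ) ^ k * Real.log ((m : ℝ) + 1)) + 1 := by
  rcases Nat.eq_zero_or_pos m with rfl | hm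
  · have h1 : Real.log 2 ≤ 1 := by
      have := Real.log_le_sub_one_of_pos (x := (2 : ℝ)) (by norm_num)
      linarith
    simpa using h1
  · have h1 : (1 : ℝ) ≤ m := by exact_mod_cast hm
    have h2 := log_two_le_log m hm
    have h3 : ((m : ℝ) + 1) ^ k ≤ 2 ^ k * (m : ℝ) ^ k := by
      rw [← mul_pow]
      exact pow_le_pow_left₀ (by linarith) (by linarith) k
    have h4 : 0 ≤ Real.log ((m : ℝ) + 2) := Real.log_nonneg (by linarith)
    calc ((m : ℝ) + 1) ^ k * Real.log ((m : ℝ) + 2)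
        ≤ (2 ^ k * (m : ℝ) ^ k) * (2 * Real.log ((m : ℝ) + 1)) :=
          mul_le_mul h3 h2 h4 (by positivity)
      _ = 2 ^ (k + 1) * ((m : ℝ) ^ k * Real.log ((m : ℝ) + 1)) := by ring
      _ ≤ _ := by linarith

theorem horn_short {k : ℕ} (hat : ∀ x, μ {x} = 0) {C : ℝ} (hC : 2 ≤ C)
    (hB : Blocks μ k (fun _ => 1) (fun m => C * (((m : ℝ) + 1) ^ k * Real.log ((m : ℝ) + 2))))
    {w : ℕ → ℕ} (hw : Monotone w)
    (hgr : ∀ᶠ n : ℕ in Filter.atTop,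
      (8 * C * 2 ^ (k + 1)) * ((w n : ℝ) ^ k * Real.log ((w n : ℝ) + 1)) ≤ Real.log n) :
    ∀ᵐ J ∂(Measure.infinitePi fun _ : LB k => μ), ∃ σ,
      {ρ | GS aa bb (horn k w) J ρ} = {σ, -σ} := by
  refine horn_gen μ hw hat (fun m => ?_) hB ?_
  · have h0 : (0 : ℝ) ≤ m := Nat.cast_nonneg m
    have h1 : Real.log ((m : ℝ) + 1) ≤ Real.log ((m : ℝ) + 2) :=
      Real.log_le_log (by linarith) (by linarith)
    have h2 : 0 ≤ Real.log ((m : ℝ) + 2) := Real.log_nonneg (by linarith)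
    have h3 : (1 : ℝ) ≤ ((m : ℝ) + 1) ^ k := one_le_pow₀ (by linarith)
    have h4 : Real.log ((m : ℝ) + 2) ≤ ((m : ℝ) + 1) ^ k * Real.log ((m : ℝ) + 2) :=
      le_mul_of_one_le_left h2 h3
    nlinarith
  · have hlog : ∀ᶠ n : ℕ in Filter.atTop, 8 * C ≤ Real.log n :=
      (Real.tendsto_log_atTop.comp tendsto_natCast_atTop_atTop).eventually_ge_atTop _
    filter_upwards [hgr, hlog] with n h1 h2
    have h3 := short_bound k (w n)
    have h4 : 4 * (C * (((w n : ℝ) + 1) ^ k * Real.log ((w n : ℝ) + 2))) ≤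
        4 * (C * (2 ^ (k + 1) * ((w n : ℝ) ^ k * Real.log ((w n : ℝ) + 1)) + 1)) := by
      have : 0 ≤ 4 * C := by linarith
      nlinarith [mul_le_mul_of_nonneg_left h3 this]
    have h5 : 4 * (C * (2 ^ (k + 1) * ((w n : ℝ) ^ k * Real.log ((w n : ℝ) + 1)) + 1)) =
        ((8 * C * 2 ^ (k + 1)) * ((w n : ℝ) ^ k * Real.log ((w n : ℝ) + 1)) + 8 * C) / 2 := by ring
    linarith

/-- regions with necks, from blocks -/
theorem neck_gen {k : ℕ} {R : Set (Fin (k + 1) → ℤ)} (hat : ∀ x, μ {x} = 0)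
    (hfin : ∀ z : ℤ, (R ∩ {v | v 0 ≤ z}).Finite)
    (hfront : ∀ D : Finset (Fin (k + 1) → ℤ), D.Nonempty → (D : Set (Fin (k + 1) → ℤ)) ⊆ R →
      ∃ e : LB k, (aa e ∈ D ∧ bb e ∈ R ∧ bb e ∉ D) ∨ (bb e ∈ D ∧ aa e ∈ R ∧ aa e ∉ D))
    {z : ℕ → ℤ} {m : ℕ → ℕ} {len : ℕ → ℕ} {Φ Ψ : ℕ → ℝ} (hB : Blocks μ k len Φ)
    (hΦΨ : ∀ m, Φ m ≤ Ψ m)
    (hneck : ∀ j, Cyl R (m j) (z j) (z j + len (m j) + 1))
    (hsep : ∀ j, z j + (len (m j) + 2) ≤ z (j + 1))
    (hdiv : ¬ Summable fun j => Real.exp (-Ψ (m j))) :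
    ∀ᵐ J ∂(Measure.infinitePi fun _ : LB k => μ), ∃ σ, {ρ | GS aa bb R J ρ} = {σ, -σ} :=
  unique_fam μ hfin hfront hat (neck_fam μ hB hneck hsep fun hs => hdiv
    (hs.of_nonneg_of_le (fun _ => (Real.exp_pos _).le)
      fun j => Real.exp_le_exp.2 (by linarith [hΦΨ (m j)])))

/-! ### Laws with small or large values of polynomial probability -/

/-- spread laws -/
def Spr (μ : Measure ℝ) : Prop := ∃ A : ℕ, ∀ t : ℝ, 2 ≤ t → ∃ a : ℝ, 0 < a ∧
  1 ≤ t ^ A * (μ.real (Set.Ioo 0 a) * μ.real (Set.Ioi (t * a)))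

lemma absorb {κ : ℝ} (hκ : 0 < κ) (B : ℕ) : ∃ A : ℕ, ∀ t : ℝ, 2 ≤ t → 1 ≤ t ^ A * (κ / t ^ B) := by
  obtain ⟨n, hn⟩ := pow_unbounded_of_one_lt (1 / κ) (one_lt_two (α := ℝ))
  refine ⟨n + B, fun t ht => ?_⟩
  have htp : 0 < t ^ B := by positivity
  have h1 : t ^ (n + B) * (κ / t ^ B) = t ^ n * κ := by
    rw [pow_add]
    field_simp
  rw [h1]
  have h2 : (2 : ℝ) ^ n ≤ t ^ n := pow_le_pow_left₀ (by norm_num) ht n
  rw [div_lt_iff₀ hκ] at hn
  nlinarith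

theorem spr_small {c : ℝ} (hc : 0 < c) (h1 : 0 < μ.real (Set.Ioi c)) {A : ℕ} {ε₀ : ℝ}
    (hε₀ : 0 < ε₀) (h : ∀ ε : ℝ, 0 < ε → ε < ε₀ → ε ^ A ≤ μ.real (Set.Ioo 0 ε)) : Spr μ := by
  set κ := min c ε₀ with hκ
  have hκ0 : 0 < κ := lt_min hc hε₀
  obtain ⟨B, hB⟩ := absorb (κ := κ ^ A * μ.real (Set.Ioi c)) (by positivity) A
  refine ⟨B, fun t ht => ⟨κ / t, by positivity, ?_⟩⟩
  have ht0 : 0 < t := by linarith
  have e1 : κ / t < ε₀ := by
    rw [div_lt_iff₀ ht0]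
    have : κ ≤ ε₀ := min_le_right _ _
    nlinarith
  have e2 : t * (κ / t) = κ := by field_simp
  have e3 : μ.real (Set.Ioi c) ≤ μ.real (Set.Ioi (t * (κ / t))) := by
    rw [e2]
    exact measureReal_mono (Set.Ioi_subset_Ioi (min_le_left _ _))
  have e4 := h (κ / t) (by positivity) e1
  refine (hB t ht).trans ?_
  apply mul_le_mul_of_nonneg_left _ (by positivity)
  have e5 : κ ^ A * μ.real (Set.Ioi c) / t ^ A = (κ / t) ^ A * μ.real (Set.Ioi c) := by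
    rw [div_pow]
    ring
  rw [e5]
  exact mul_le_mul e4 e3 measureReal_nonneg measureReal_nonneg

theorem spr_large {c : ℝ} (hc : 0 < c) (h0 : 0 < μ.real (Set.Ioo 0 c)) {A : ℕ} {x₀ : ℝ}
    (h : ∀ x : ℝ, x₀ < x → 1 ≤ x ^ A * μ.real (Set.Ioi x)) : Spr μ := by
  set a := max c (|x₀| + 1) with ha
  have ha0 : 0 < a := lt_of_lt_of_le hc (le_max_left _ _)
  have hax : |x₀| + 1 ≤ a := le_max_right _ _
  obtain ⟨B, hB⟩ := absorb (κ := μ.real (Set.Ioo 0 c) / a ^ A) (by positivity) A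
  refine ⟨B, fun t ht => ⟨a, ha0, ?_⟩⟩
  have ht0 : 0 < t := by linarith
  have e1 : x₀ < t * a := by
    have := le_abs_self x₀
    nlinarith [abs_nonneg x₀]
  have e2 := h (t * a) e1
  have e3 : μ.real (Set.Ioo 0 c) ≤ μ.real (Set.Ioo 0 a) :=
    measureReal_mono (Set.Ioo_subset_Ioo_right (le_max_left _ _))
  refine (hB t ht).trans ?_
  apply mul_le_mul_of_nonneg_left _ (by positivity)
  have htap : 0 < (t * a) ^ A := by positivity
  have e4 : 1 / (t * a) ^ A ≤ μ.real (Set.Ioi (t * a)) := by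
    rw [div_le_iff₀ htap, mul_comm]
    exact e2
  calc μ.real (Set.Ioo 0 c) / a ^ A / t ^ A = μ.real (Set.Ioo 0 c) * (1 / (t * a) ^ A) := by
        rw [mul_pow, mul_comm (t ^ A)]
        field_simp
    _ ≤ μ.real (Set.Ioo 0 a) * μ.real (Set.Ioi (t * a)) :=
        mul_le_mul e3 e4 (by positivity) measureReal_nonneg

theorem spr_gauss (v : NNReal) (hv : v ≠ 0) : Spr (gaussianReal 0 v) := by
  have hdens : ∀ x : ℝ, 0 < gaussianPDFReal 0 v x := fun x => gaussianPDFReal_pos 0 v x hv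
  set κ := gaussianPDFReal 0 v 1 with hκ
  have hκ0 : 0 < κ := hdens 1
  have hanti : ∀ x : ℝ, 0 ≤ x → x ≤ 1 → κ ≤ gaussianPDFReal 0 v x := by
    intro x h0 h1
    rw [hκ]
    unfold gaussianPDFReal
    apply mul_le_mul_of_nonneg_left _ (by positivity)
    apply Real.exp_le_exp.2
    have hv0 : (0 : ℝ) < 2 * (v : ℝ) := by
      have : (0 : ℝ) < v := by exact_mod_cast pos_iff_ne_zero.2 hv
      linarith
    rw [div_le_div_iff_of_pos_right hv0]
    nlinarith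
  have hlow : ∀ ε : ℝ, 0 < ε → ε ≤ 1 → κ * ε ≤ (gaussianReal 0 v).real (Set.Ioo 0 ε) := by
    intro ε h0 h1
    have e1 : ENNReal.ofReal (κ * ε) ≤ (gaussianReal 0 v) (Set.Ioo 0 ε) := by
      rw [gaussianReal_apply 0 hv]
      have e2 : ENNReal.ofReal (κ * ε) = ∫⁻ _ in Set.Ioo (0 : ℝ) ε, ENNReal.ofReal κ := by
        rw [lintegral_const, Measure.restrict_apply MeasurableSet.univ, Set.univ_inter,
          Real.volume_Ioo, sub_zero, ENNReal.ofReal_mul hκ0.le]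
      rw [e2]
      refine setLIntegral_mono (measurable_gaussianPDF 0 v) fun x hx => ?_
      exact ENNReal.ofReal_le_ofReal (hanti x hx.1.le (hx.2.le.trans h1))
    have e3 : (gaussianReal 0 v) (Set.Ioo 0 ε) ≠ ⊤ := measure_ne_top _ _
    exact (ENNReal.ofReal_le_iff_le_toReal e3).1 e1
  have hpos : 0 < (gaussianReal 0 v).real (Set.Ioi 1) := by
    rw [Measure.real, ENNReal.toReal_pos_iff]
    refine ⟨?_, measure_lt_top _ _⟩
    rw [gaussianReal_apply 0 hv, lintegral_pos_iff_support (measurable_gaussianPDF 0 v)]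
    have : Function.support (gaussianPDF 0 v) = Set.univ := by
      ext x
      simp only [Function.mem_support, Set.mem_univ, iff_true]
      exact (ENNReal.ofReal_pos.2 (hdens x)).ne'
    rw [this, Measure.restrict_apply MeasurableSet.univ, Set.univ_inter, Real.volume_Ioi]
    exact ENNReal.zero_lt_top
  refine spr_small _ (c := 1) one_pos hpos (A := 2) (ε₀ := min κ 1) (lt_min hκ0 one_pos)
    fun ε h0 h1 => ?_
  have e1 : ε < κ := lt_of_lt_of_le h1 (min_le_left _ _)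
  have e2 : ε < 1 := lt_of_lt_of_le h1 (min_le_right _ _)
  refine le_trans ?_ (hlow ε h0 e2.le)
  nlinarith

end Pool.Agent.K3h91.EA
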