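import Pool.Agent.TH761.EB.Pr

/-!
# A linear isoperimetric inequality for the box, and slabs between two weak cuts
-/

set_option autoImplicit false

open Finset

namespace Pool.Agent.K3h91.EA

open Pool.Agent.TH761.EA Pool.Agent.TH761.EB

section hybrid

variable {k : ℕ} {X : Type}

/-- the first `j` coordinates of `y`, the others of `x` -/
def hyb (j : ℕ) (x y : Fin k → X) : Fin k → X := fun i => if (i : ℕ) < j then y i else x i

lemma hyb_zero (x y : Fin k → X) : hyb 0 x y = x := by
  funext i; simp [hyb]

lemma hyb_top (x y : Fin k → X) : hyb k x y = y := by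
  funext i; simp [hyb]

lemma hyb_hyb (j : ℕ) (x y : Fin k → X) : hyb j (hyb j x y) (hyb j y x) = x := by
  funext i
  unfold hyb
  split_ifs <;> rfl

lemma hyb_succ (j : Fin k) (x y : Fin k → X) :
    hyb (j + 1) x y = Function.update (hyb j x y) j (hyb j y x j) := by
  funext i
  by_cases hi : i = j
  · subst hi
    simp [hyb]
  · rw [Function.update_of_ne hi]
    have h1 : (i : ℕ) ≠ j := fun h => hi (Fin.ext h)
    have h2 : ((i : ℕ) < j + 1) ↔ (i : ℕ) < j := by omega
    simp only [hyb, h2]

lemma chain {f : (Fin k → X) → ℝ} {x y : Fin k → X}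
    (h : ∀ j : Fin k, f (hyb j x y) = f (Function.update (hyb j x y) j (hyb j y x j))) :
    f x = f y := by
  have key : ∀ j : ℕ, j ≤ k → f (hyb j x y) = f x := by
    intro j
    induction j with
    | zero => intro _; rw [hyb_zero]
    | succ j ih =>
      intro hj
      have h1 := h ⟨j, hj⟩
      have h2 := hyb_succ ⟨j, hj⟩ x y
      simp only at h1 h2
      rw [h2, ← h1]
      exact ih (by omega)
  have h1 := key k le_rfl
  rw [hyb_top] at h1
  exact h1.symm

lemma pairs_le [Fintype X] [DecidableEq X] (f : (Fin k → X) → ℝ) :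
    ((univ : Finset ((Fin k → X) × (Fin k → X))).filter fun p => f p.1 ≠ f p.2).card ≤
      ∑ j : Fin k, ((univ : Finset ((Fin k → X) × (Fin k → X))).filter fun p =>
        f p.1 ≠ f (Function.update p.1 j (p.2 j))).card := by
  classical
  have hsub : ((univ : Finset ((Fin k → X) × (Fin k → X))).filter fun p => f p.1 ≠ f p.2) ⊆
      (univ : Finset (Fin k)).biUnion fun j =>
        ((univ : Finset ((Fin k → X) × (Fin k → X))).filter fun p =>
          f (hyb j p.1 p.2) ≠ f (Function.update (hyb j p.1 p.2) j (hyb j p.2 p.1 j))) := by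
    intro p hp
    rw [mem_filter] at hp
    rw [mem_biUnion]
    by_contra hcon
    push Not at hcon
    apply hp.2
    apply chain
    intro j
    by_contra hj
    exact hcon j (mem_univ _) (mem_filter.2 ⟨mem_univ _, hj⟩)
  refine (card_le_card hsub).trans (card_biUnion_le.trans (le_of_eq ?_))
  refine Finset.sum_congr rfl fun j _ => ?_
  refine Finset.card_bij (fun p _ => (hyb j p.1 p.2, hyb j p.2 p.1)) ?_ ?_ ?_
  · intro p hp
    rw [mem_filter] at hp ⊢
    exact ⟨mem_univ _, hp.2⟩
  · intro p _ q _ h
    rw [Prod.mk.injEq] at h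
    apply Prod.ext
    · rw [← hyb_hyb j p.1 p.2, h.1, h.2, hyb_hyb]
    · rw [← hyb_hyb j p.2 p.1, h.1, h.2, hyb_hyb]
  · intro q hq
    refine ⟨(hyb j q.1 q.2, hyb j q.2 q.1), ?_, ?_⟩
    · rw [mem_filter] at hq ⊢
      refine ⟨mem_univ _, ?_⟩
      simp only [hyb_hyb]
      exact hq.2
    · simp only [hyb_hyb]

end hybrid

/-- number of sites of the column where `f` is not `u` -/
noncomputable def cnt {V : Type} [Fintype V] (f : V → ℝ) (u : ℝ) : ℕ :=
  (univ.filter fun x => f x ≠ u).card

/-- number of bonds of the column which `f` does not satisfy -/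
noncomputable def dis {V I : Type} [Fintype I] (s t : I → V) (f : V → ℝ) : ℕ :=
  (univ.filter fun i => f (s i) ≠ f (t i)).card

section box

variable {k m : ℕ}

/-- If `f` is not constant on a line of the box, it cuts a bond of the line. -/
lemma line (f : Bx k m → ℝ) (z : Bx k m) (j : Fin k) (u : Finset.Icc (-(m : ℤ)) (m : ℤ))
    (h : f z ≠ f (Function.update z j u)) :
    ∃ p : Bi k m, p.1.2 = j ∧ Function.update p.1.1 j (z j) = z ∧ f (bs p) ≠ f (bt p) := by
  by_contra hcon
  push Not at hcon
  have hbot : -(m : ℤ) ∈ Finset.Icc (-(m : ℤ)) (m : ℤ) := by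
    rw [Finset.mem_Icc]; constructor <;> omega
  have key : ∀ (n : ℕ) (v : Finset.Icc (-(m : ℤ)) (m : ℤ)), ((v : ℤ) + m).toNat = n →
      f (Function.update z j v) = f (Function.update z j ⟨-(m : ℤ), hbot⟩) := by
    intro n
    induction n with
    | zero =>
      intro v hv
      congr 2
      apply Subtype.ext
      have h2 := Finset.mem_Icc.1 v.2
      simp only
      omega
    | succ n ih =>
      intro v hv
      have h2 := Finset.mem_Icc.1 v.2
      have hv' : (v : ℤ) - 1 ∈ Finset.Icc (-(m : ℤ)) (m : ℤ) := by
        rw [Finset.mem_Icc]; constructor <;> omega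
      set v' : Finset.Icc (-(m : ℤ)) (m : ℤ) := ⟨(v : ℤ) - 1, hv'⟩ with hvd
      have hlt : ((Function.update z j v' j : Finset.Icc (-(m : ℤ)) (m : ℤ)) : ℤ) < m := by
        rw [Function.update_self]
        simp only [hvd]; omega
      have h3 := hcon ⟨(Function.update z j v', j), hlt⟩ rfl (by
        rw [Function.update_idem, Function.update_eq_self])
      have e1 : bs (⟨(Function.update z j v', j), hlt⟩ : Bi k m) = Function.update z j v' := rfl
      have e2 : bt (⟨(Function.update z j v', j), hlt⟩ : Bi k m) = Function.update z j v := by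
        unfold bt
        simp only
        rw [Function.update_idem]
        congr 1
        apply Subtype.ext
        simp [hvd]
      rw [e1, e2] at h3
      rw [← h3]
      apply ih
      simp only [hvd]; omega
  apply h
  have h1 := key _ (z j) rfl
  rw [Function.update_eq_self] at h1
  rw [h1, key _ u rfl]

lemma nonconst_card (f : Bx k m → ℝ) (j : Fin k) :
    ((univ : Finset (Bx k m × Bx k m)).filter fun p =>
        f p.1 ≠ f (Function.update p.1 j (p.2 j))).card ≤
      Fintype.card (Bx k m) * ((2 * m + 1) *
        ((univ : Finset (Bi k m)).filter fun p => f (bs p) ≠ f (bt p) ∧ p.1.2 = j).card) := by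
  classical
  set E := (univ : Finset (Bi k m)).filter fun p => f (bs p) ≠ f (bt p) ∧ p.1.2 = j with hE
  have hsub : ((univ : Finset (Bx k m × Bx k m)).filter fun p =>
        f p.1 ≠ f (Function.update p.1 j (p.2 j))) ⊆
      (((univ : Finset (Finset.Icc (-(m : ℤ)) (m : ℤ))) ×ˢ E).image
        fun q => Function.update q.2.1.1 j q.1) ×ˢ (univ : Finset (Bx k m)) := by
    intro p hp
    rw [mem_filter] at hp
    obtain ⟨e, he1, he2, he3⟩ := line f p.1 j (p.2 j) hp.2
    rw [mem_product]
    refine ⟨?_, mem_univ _⟩
    rw [mem_image]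
    refine ⟨(p.1 j, e), ?_, he2⟩
    rw [mem_product]
    exact ⟨mem_univ _, mem_filter.2 ⟨mem_univ _, he3, he1⟩⟩
  refine (card_le_card hsub).trans ?_
  rw [card_product, mul_comm, card_univ]
  refine Nat.mul_le_mul_left _ (card_image_le.trans ?_)
  rw [card_product, card_univ, Fintype.card_coe, Int.card_Icc]
  apply Nat.mul_le_mul_right
  omega

/-- The linear isoperimetric inequality for the box. -/
theorem iso (f : Bx k m → ℝ) (hf : ∀ x, f x = 1 ∨ f x = -1) :
    cnt f 1 ≤ (2 * m + 1) * dis (bs : Bi k m → Bx k m) bt f ∨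
      cnt f (-1) ≤ (2 * m + 1) * dis (bs : Bi k m → Bx k m) bt f := by
  classical
  have h1 := pairs_le f
  have h2 : ∑ j : Fin k, ((univ : Finset (Bx k m × Bx k m)).filter fun p =>
        f p.1 ≠ f (Function.update p.1 j (p.2 j))).card ≤
      Fintype.card (Bx k m) * ((2 * m + 1) * dis (bs : Bi k m → Bx k m) bt f) := by
    refine (Finset.sum_le_sum fun j _ => nonconst_card f j).trans (le_of_eq ?_)
    rw [← Finset.mul_sum, ← Finset.mul_sum]
    congr 2
    unfold dis
    rw [Finset.card_eq_sum_card_fiberwise (f := fun p : Bi k m => p.1.2) (t := univ)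
      (fun _ _ => mem_coe.2 (mem_univ _))]
    refine Finset.sum_congr rfl fun j _ => ?_
    rw [Finset.filter_filter]
  set A := (univ : Finset (Bx k m)).filter fun x => f x ≠ 1 with hA
  set B := (univ : Finset (Bx k m)).filter fun x => f x ≠ -1 with hB
  have hAm : ∀ x, x ∈ A ↔ f x = -1 := by
    intro x
    rw [hA, mem_filter]
    constructor
    · rintro ⟨_, h⟩
      rcases hf x with h' | h'
      · exact absurd h' h
      · exact h'
    · intro h
      refine ⟨mem_univ _, ?_⟩
      rw [h]; norm_num
  have hBm : ∀ x, x ∈ B ↔ f x = 1 := by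
    intro x
    rw [hB, mem_filter]
    constructor
    · rintro ⟨_, h⟩
      rcases hf x with h' | h'
      · exact h'
      · exact absurd h' h
    · intro h
      refine ⟨mem_univ _, ?_⟩
      rw [h]; norm_num
  have hcard : Fintype.card (Bx k m) = A.card + B.card := by
    rw [← card_univ, ← card_union_of_disjoint]
    · congr 1
      ext x
      simp only [mem_univ, mem_union, hAm, hBm, true_iff]
      exact (hf x).symm
    · rw [disjoint_left]
      intro x hx hx'
      rw [hAm] at hx
      rw [hBm] at hx'
      rw [hx] at hx'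
      norm_num at hx'
  have h3 : A.card * B.card + B.card * A.card ≤
      ((univ : Finset (Bx k m × Bx k m)).filter fun p => f p.1 ≠ f p.2).card := by
    rw [← card_product, ← card_product, ← card_union_of_disjoint]
    · apply card_le_card
      intro p hp
      rw [mem_union, mem_product, mem_product, hAm, hBm, hAm, hBm] at hp
      rw [mem_filter]
      refine ⟨mem_univ _, ?_⟩
      rcases hp with ⟨h4, h5⟩ | ⟨h4, h5⟩ <;> rw [h4, h5] <;> norm_num
    · rw [disjoint_left]
      intro p hp hp'
      rw [mem_product, hAm, hBm] at hp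
      rw [mem_product, hAm, hBm] at hp'
      rw [hp.1] at hp'
      norm_num at hp'
  have h4 := h3.trans (h1.trans h2)
  have hc1 : cnt f 1 = A.card := rfl
  have hc2 : cnt f (-1) = B.card := rfl
  rw [hc1, hc2]
  set Dd := (2 * m + 1) * dis (bs : Bi k m → Bx k m) bt f with hD
  rw [hcard] at h4
  rcases le_total A.card B.card with h5 | h5
  · left
    rcases Nat.eq_zero_or_pos (A.card + B.card) with h6 | h6
    · omega
    · by_contra hcon
      push Not at hcon
      have e1 : (A.card + B.card) * A.card ≤ A.card * B.card + B.card * A.card := by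
        nlinarith
      have e2 : (A.card + B.card) * Dd < (A.card + B.card) * A.card :=
        Nat.mul_lt_mul_of_pos_left hcon h6
      omega
  · right
    rcases Nat.eq_zero_or_pos (A.card + B.card) with h6 | h6
    · omega
    · by_contra hcon
      push Not at hcon
      have e1 : (A.card + B.card) * B.card ≤ A.card * B.card + B.card * A.card := by
        nlinarith
      have e2 : (A.card + B.card) * Dd < (A.card + B.card) * B.card :=
        Nat.mul_lt_mul_of_pos_left hcon h6
      omega

end box

end Pool.Agent.K3h91.EA
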