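import Pool.Agent.K3h91.EA.Prb
import Pool.Agent.TH761.EB.Grow

/-!
# Numerical part: necks and horns
-/

set_option autoImplicit false

open Finset MeasureTheory ProbabilityTheory

namespace Pool.Agent.K3h91.EA

open Pool.Agent.TH761.EA Pool.Agent.TH761.EB

variable (μ : Measure ℝ) [IsProbabilityMeasure μ]

/-- blocks with probability at least `exp (-Φ m)` exist for every radius -/
def Blocks (k : ℕ) (len : ℕ → ℕ) (Φ : ℕ → ℝ) : Prop :=
  ∀ m, 1 ≤ len m ∧ len m + 1 ≤ 4 * (m + 1) ∧ ∃ a b : ℝ, 0 ≤ a ∧ a ≤ b ∧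
    2 * (2 * (m : ℝ) + 1) * a ≤ len m * b ∧ Real.exp (-Φ m) ≤ prb μ k m a b (len m)

/-- Slowly widening horns have many disjoint blocks. -/
theorem horn_fam {k : ℕ} {w : ℕ → ℕ} (hw : Monotone w) {len : ℕ → ℕ} {Φ : ℕ → ℝ}
    (hΦ : ∀ m : ℕ, 2 * Real.log ((m : ℝ) + 1) ≤ Φ m) (hB : Blocks μ k len Φ)
    (hgr : ∀ᶠ n : ℕ in Filter.atTop, 4 * Φ (w n) ≤ Real.log n) (n0 T : ℕ) :
    ∃ (S : Finset ℕ) (z : ℕ → ℤ) (m ℓ : ℕ → ℕ) (a b : ℕ → ℝ),
      Fam (horn k w) n0 S z m ℓ a b ∧ (T : ℝ) ≤ ∑ i ∈ S, prb μ k (m i) (a i) (b i) (ℓ i) := by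
  classical
  obtain ⟨n1, hn1⟩ := Filter.eventually_atTop.1 hgr
  obtain ⟨N, hN⟩ : ∃ N : ℕ, N = n0 + n1 + T + 8 := ⟨_, rfl⟩
  have hN8 : 8 ≤ N := by omega
  have hNR : (8 : ℝ) ≤ N := by exact_mod_cast hN8
  obtain ⟨n, hn⟩ : ∃ n : ℕ, n = N ^ 8 := ⟨_, rfl⟩
  have hNn : N ≤ n := by rw [hn]; exact Nat.le_self_pow (by norm_num) N
  have hn2 : 2 * n ≤ (2 * N) ^ 8 := by
    rw [mul_pow, ← hn]
    exact Nat.mul_le_mul_right _ (by norm_num)
  have hlog2 : Real.log ((2 * n : ℕ) : ℝ) ≤ 8 * Real.log (2 * N) := by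
    have h1 : ((2 * n : ℕ) : ℝ) ≤ (2 * (N : ℝ)) ^ 8 := by exact_mod_cast hn2
    have h2 : (0 : ℝ) < ((2 * n : ℕ) : ℝ) := by
      have : 0 < 2 * n := by omega
      exact_mod_cast this
    have h3 := Real.log_le_log h2 h1
    rw [Real.log_pow] at h3
    exact_mod_cast h3
  have hWbound : w (2 * n) + 1 ≤ 2 * N := by
    have h1 := hn1 (2 * n) (by omega)
    have h2 := hΦ (w (2 * n))
    have h3 : 8 * Real.log ((w (2 * n) : ℝ) + 1) ≤ 8 * Real.log (2 * N) := by linarith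
    have h4 : Real.log ((w (2 * n) : ℝ) + 1) ≤ Real.log (2 * N) := by linarith
    have h5 : ((w (2 * n) : ℝ) + 1) ≤ 2 * N := by
      rwa [Real.log_le_log_iff (by positivity) (by positivity)] at h4
    exact_mod_cast h5
  have hcount : (w (2 * n) + 1) * N ^ 6 < n := by
    calc (w (2 * n) + 1) * N ^ 6 ≤ (2 * N) * N ^ 6 := Nat.mul_le_mul_right _ hWbound
      _ = 2 * N ^ 7 := by ring
      _ < N * N ^ 7 := Nat.mul_lt_mul_of_pos_right (by omega) (by positivity)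
      _ = n := by rw [hn]; ring
  obtain ⟨m, hm, hcard⟩ := Finset.exists_lt_card_fiber_of_mul_lt_card_of_maps_to
    (s := Finset.Ico n (2 * n)) (t := Finset.range (w (2 * n) + 1)) (f := w) (n := N ^ 6)
    (fun i hi => Finset.mem_range.2 (Nat.lt_succ_of_le (hw (Finset.mem_Ico.1 hi).2.le)))
    (by rw [Finset.card_range, Nat.card_Ico]; omega)
  set F := (Finset.Ico n (2 * n)).filter (fun i => w i = m) with hF
  have hFne : F.Nonempty := Finset.card_pos.1 (by omega)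
  set a0 := F.min' hFne with ha
  have haF : a0 ∈ F := Finset.min'_mem _ _
  have haF' := Finset.mem_filter.1 haF
  have haI := Finset.mem_Ico.1 haF'.1
  obtain ⟨j, hjF, hj⟩ : ∃ j ∈ F, a0 + N ^ 6 ≤ j := by
    by_contra hcon
    push Not at hcon
    have hsub : F ⊆ Finset.Ico a0 (a0 + N ^ 6) := fun i hi =>
      Finset.mem_Ico.2 ⟨Finset.min'_le _ _ hi, hcon i hi⟩
    have := Finset.card_le_card hsub
    rw [Nat.card_Ico] at this
    omega
  have hjF' := (Finset.mem_filter.1 hjF).2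
  have hconst : ∀ i : ℕ, a0 ≤ i → i ≤ a0 + N ^ 6 → w i = m := by
    intro i h1 h2
    have e1 := hw h1
    have e2 := hw (h2.trans hj)
    rw [haF'.2] at e1
    rw [hjF'] at e2
    omega
  have hm1 : m + 1 ≤ 2 * N := by
    have : m < w (2 * n) + 1 := Finset.mem_range.1 hm
    omega
  obtain ⟨hl1, hl2, a, b, hab0, hab, hrat, hprb⟩ := hB m
  have hl3 : len m + 1 ≤ 8 * N := by omega
  obtain ⟨M, hM⟩ : ∃ M : ℕ, M = N ^ 4 := ⟨_, rfl⟩
  have hMl : M * (len m + 1) ≤ N ^ 6 := by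
    rw [hM]
    calc N ^ 4 * (len m + 1) ≤ N ^ 4 * (8 * N) := Nat.mul_le_mul_left _ hl3
      _ = 8 * N ^ 5 := by ring
      _ ≤ N * N ^ 5 := Nat.mul_le_mul_right _ hN8
      _ = N ^ 6 := by ring
  have hp : 1 / (4 * (N : ℝ) ^ 2) ≤ Real.exp (-Φ m) := by
    have h1 := hn1 a0 (by omega)
    rw [haF'.2] at h1
    have h2 : Real.log (a0 : ℝ) ≤ Real.log ((2 * n : ℕ) : ℝ) := by
      apply Real.log_le_log
      · have : 0 < a0 := by omega
        exact_mod_cast this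
      · exact_mod_cast haI.2.le
    have h3 : Φ m ≤ 2 * Real.log (2 * N) := by linarith
    have h4 : Real.exp (-(2 * Real.log (2 * N))) = 1 / (4 * (N : ℝ) ^ 2) := by
      have h5 : Real.exp (Real.log (2 * N)) = 2 * N := Real.exp_log (by positivity)
      rw [Real.exp_neg, two_mul, Real.exp_add, h5, one_div]
      congr 1
      ring
    rw [← h4]
    exact Real.exp_le_exp.2 (by linarith)
  refine ⟨range M, fun i => a0 + 1 + i * (len m + 1), fun _ => m, fun _ => len m, fun _ => a,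
    fun _ => b, ⟨?_, ?_, fun _ _ => hl1, ?_, fun _ _ => ⟨hab0, hab⟩, fun _ _ => hrat⟩, ?_⟩
  · intro i j hij
    have h1 : (i + 1) * (len m + 1) ≤ j * (len m + 1) := Nat.mul_le_mul_right _ hij
    have h2 : ((i : ℤ) + 1) * (len m + 1) ≤ j * (len m + 1) := by exact_mod_cast h1
    have h3 : ((i : ℤ) + 1) * (len m + 1) = i * (len m + 1) + (len m + 1) := by ring
    omega
  · intro i _
    have h1 : (0 : ℤ) ≤ i * (len m + 1) := by positivity
    omega
  · intro i hi v hv1 hv2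
    rw [mem_range] at hi
    have h1 : (i + 1) * (len m + 1) ≤ M * (len m + 1) := Nat.mul_le_mul_right _ hi
    have h2 : ((i : ℤ) + 1) * (len m + 1) ≤ (N : ℤ) ^ 6 := by exact_mod_cast h1.trans hMl
    have h3 : ((i : ℤ) + 1) * (len m + 1) = i * (len m + 1) + (len m + 1) := by ring
    have h4 : (0 : ℤ) ≤ i * (len m + 1) := by positivity
    have hv0 : (a0 : ℤ) ≤ v 0 := by omega
    have hvt : (v 0).toNat ≤ a0 + N ^ 6 := by
      have : ((v 0).toNat : ℤ) ≤ a0 + (N : ℤ) ^ 6 := by omega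
      exact_mod_cast this
    have hwv : w (v 0).toNat = m := hconst _ (by omega) hvt
    unfold horn
    constructor
    · rintro ⟨_, h⟩
      rw [hwv] at h
      exact h
    · intro h
      refine ⟨by omega, ?_⟩
      rw [hwv]
      exact h
  · rw [Finset.sum_const, card_range, nsmul_eq_mul]
    have h1 : 1 / (4 * (N : ℝ) ^ 2) ≤ prb μ k m a b (len m) := hp.trans hprb
    have h2 : (M : ℝ) * (1 / (4 * (N : ℝ) ^ 2)) ≤ M * prb μ k m a b (len m) :=
      mul_le_mul_of_nonneg_left h1 (Nat.cast_nonneg _)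
    refine le_trans ?_ h2
    have h3 : (M : ℝ) * (1 / (4 * (N : ℝ) ^ 2)) = (N : ℝ) ^ 2 / 4 := by
      rw [hM]
      push_cast
      have : (N : ℝ) ≠ 0 := by linarith
      field_simp
    rw [h3]
    have h4 : (T : ℝ) ≤ N := by
      have : T ≤ N := by omega
      exact_mod_cast this
    nlinarith

/-- Regions with infinitely many necks. -/
theorem neck_fam {k : ℕ} {R : Set (Fin (k + 1) → ℤ)} {z : ℕ → ℤ} {m : ℕ → ℕ} {len : ℕ → ℕ}
    {Φ : ℕ → ℝ} (hB : Blocks μ k len Φ)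
    (hneck : ∀ j, Cyl R (m j) (z j) (z j + len (m j) + 1))
    (hsep : ∀ j, z j + (len (m j) + 2) ≤ z (j + 1))
    (hdiv : ¬ Summable fun j => Real.exp (-Φ (m j))) (n0 T : ℕ) :
    ∃ (S : Finset ℕ) (z : ℕ → ℤ) (m ℓ : ℕ → ℕ) (a b : ℕ → ℝ),
      Fam R n0 S z m ℓ a b ∧ (T : ℝ) ≤ ∑ i ∈ S, prb μ k (m i) (a i) (b i) (ℓ i) := by
  classical
  have hgap : ∀ i j, i < j → z i + (len (m i) + 2) ≤ z j := by
    intro i j hij
    induction j, hij using Nat.le_induction with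
    | base => exact hsep i
    | succ j hj ih => have := hsep j; omega
  have hz : ∀ j : ℕ, z 0 + j ≤ z j := by
    intro j
    induction j with
    | zero => simp
    | succ j ih => have := hsep j; push_cast; omega
  choose h1 h2 a b hab0 hab hrat hprb using hB
  set j0 : ℕ := n0 + (z 0).natAbs with hj0
  have hfar : ∀ j, j0 ≤ j → (n0 : ℤ) ≤ z j + 1 := by
    intro j hj
    have := hz j
    omega
  have htend := (not_summable_iff_tendsto_nat_atTop_of_nonneg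
    (f := fun j => Real.exp (-Φ (m j))) (fun j => (Real.exp_pos _).le)).1 hdiv
  obtain ⟨J1, hJ1⟩ := Filter.eventually_atTop.1 (htend.eventually_ge_atTop
    ((T : ℝ) + ∑ j ∈ range j0, Real.exp (-Φ (m j))))
  set J2 := max J1 j0 with hJ2
  have h3 := hJ1 J2 (le_max_left _ _)
  have h4 : j0 ≤ J2 := le_max_right _ _
  rw [← Finset.sum_range_add_sum_Ico _ h4] at h3
  refine ⟨Ico j0 J2, fun j => z j + 1, m, fun j => len (m j), fun j => a (m j), fun j => b (m j),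
    ⟨?_, ?_, fun _ _ => h1 _, ?_, fun _ _ => ⟨hab0 _, hab _⟩, fun _ _ => hrat _⟩, ?_⟩
  · intro i j hij
    have := hgap i j hij
    omega
  · intro i hi
    exact hfar i (mem_Ico.1 hi).1
  · intro i _ v hv1 hv2
    exact hneck i v (by omega) (by omega)
  · have h5 : ∑ j ∈ Ico j0 J2, Real.exp (-Φ (m j)) ≤
        ∑ j ∈ Ico j0 J2, prb μ k (m j) (a (m j)) (b (m j)) (len (m j)) :=
      Finset.sum_le_sum fun j _ => hprb (m j)
    linarith

/-! ### The two kinds of blocks -/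

lemma exponent (k m : ℕ) : (2 * (m : ℝ) + 1) ^ k ≤ 2 ^ k * ((m : ℝ) + 1) ^ k := by
  rw [← mul_pow]
  apply pow_le_pow_left₀ (by positivity)
  linarith

/-- Long blocks, for every law with two ranges of values. -/
theorem blocks_long (k : ℕ) {c : ℝ} (hc : 0 < c) (h0 : 0 < μ.real (Set.Ioo 0 c))
    (h1 : 0 < μ.real (Set.Ioi c)) :
    ∃ C : ℝ, 2 ≤ C ∧ Blocks μ k (fun m => 4 * m + 2) (fun m => C * ((m : ℝ) + 1) ^ (k + 1)) := by
  set δ : ℝ := min (μ.real (Set.Ioo 0 c)) (μ.real (Set.Ioi c)) with hδd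
  have hδ : 0 < δ := lt_min h0 h1
  have hδ1 : δ ≤ 1 := (min_le_left _ _).trans measureReal_le_one
  set lam : ℝ := -Real.log δ with hlam
  have hlam0 : 0 ≤ lam := by
    have := Real.log_nonpos hδ.le hδ1
    linarith
  refine ⟨lam * ((4 * k + 6) * 2 ^ k) + 2, by
    have : 0 ≤ lam * ((4 * (k : ℝ) + 6) * 2 ^ k) := by positivity
    linarith, fun m => ⟨by simp only; omega, by simp only; omega, c, c, hc.le, le_rfl, ?_, ?_⟩⟩
  · push_cast
    apply le_of_eq
    ring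
  · set E : ℕ := 2 * (2 * m + 1) ^ k + (4 * m + 2 + 1) * (k + 1) * (2 * m + 1) ^ k with hE
    have hm0 : (0 : ℝ) ≤ m := Nat.cast_nonneg m
    have hE1 : (E : ℝ) ≤ ((4 * k + 6) * 2 ^ k) * ((m : ℝ) + 1) ^ (k + 1) := by
      have e1 : (E : ℝ) = (2 + (4 * (m : ℝ) + 3) * (k + 1)) * (2 * (m : ℝ) + 1) ^ k := by
        rw [hE]; push_cast; ring
      rw [e1]
      have e2 : 2 + (4 * (m : ℝ) + 3) * (k + 1) ≤ (4 * k + 6) * ((m : ℝ) + 1) := by
        have : (0 : ℝ) ≤ k := Nat.cast_nonneg k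
        nlinarith
      calc (2 + (4 * (m : ℝ) + 3) * (k + 1)) * (2 * (m : ℝ) + 1) ^ k
          ≤ ((4 * k + 6) * ((m : ℝ) + 1)) * (2 ^ k * ((m : ℝ) + 1) ^ k) :=
            mul_le_mul e2 (exponent k m) (by positivity) (by positivity)
        _ = ((4 * k + 6) * 2 ^ k) * ((m : ℝ) + 1) ^ (k + 1) := by ring
    have hpow : δ ^ E ≤ prb μ k m c c (4 * m + 2) := by
      unfold prb
      rw [hE, pow_add]
      exact mul_le_mul (pow_le_pow_left₀ hδ.le (min_le_left _ _) _)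
        (pow_le_pow_left₀ hδ.le (min_le_right _ _) _) (by positivity) (by positivity)
    refine le_trans ?_ hpow
    have h2 : δ ^ E = Real.exp (-(lam * E)) := by
      rw [hlam, neg_mul, neg_neg, mul_comm, Real.exp_nat_mul, Real.exp_log hδ]
    rw [h2]
    apply Real.exp_le_exp.2
    have h3 := mul_le_mul_of_nonneg_left hE1 hlam0
    have h4 : 0 ≤ ((m : ℝ) + 1) ^ (k + 1) := by positivity
    nlinarith

/-- Short blocks, for laws with small or large values of polynomial probability. -/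
theorem blocks_short (k : ℕ) {A : ℕ} (hA : ∀ t : ℝ, 2 ≤ t → ∃ a : ℝ, 0 < a ∧
      1 ≤ t ^ A * (μ.real (Set.Ioo 0 a) * μ.real (Set.Ioi (t * a)))) :
    ∃ C : ℝ, 2 ≤ C ∧ Blocks μ k (fun _ => 1)
      (fun m => C * (((m : ℝ) + 1) ^ k * Real.log ((m : ℝ) + 2))) := by
  refine ⟨4 * A * (k + 1) * 2 ^ k + 2, by
    have : 0 ≤ 4 * (A : ℝ) * (k + 1) * 2 ^ k := by positivity
    linarith, fun m => ⟨le_rfl, by simp only; omega, ?_⟩⟩
  have hm0 : (0 : ℝ) ≤ m := Nat.cast_nonneg m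
  set t : ℝ := 2 * (2 * (m : ℝ) + 1) with ht
  have ht2 : 2 ≤ t := by linarith
  obtain ⟨a, ha, h1⟩ := hA t ht2
  refine ⟨a, t * a, ha.le, by nlinarith, by rw [Nat.cast_one, one_mul], ?_⟩
  set α := μ.real (Set.Ioo 0 a) with hα
  set β := μ.real (Set.Ioi (t * a)) with hβ
  have hα0 : 0 ≤ α := measureReal_nonneg
  have hβ0 : 0 ≤ β := measureReal_nonneg
  have hα1 : α ≤ 1 := measureReal_le_one
  have hβ1 : β ≤ 1 := measureReal_le_one
  set E : ℕ := 2 * (k + 1) * (2 * m + 1) ^ k with hE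
  have htp : 0 < t ^ A := by positivity
  have hab : (t ^ A)⁻¹ ≤ α * β := by
    rw [inv_le_iff_one_le_mul₀ htp, mul_comm]
    exact h1
  have hpow : (α * β) ^ E ≤ prb μ k m a (t * a) 1 := by
    unfold prb
    rw [mul_pow]
    refine mul_le_mul (pow_le_pow_of_le_one hα0 hα1 ?_) (le_of_eq ?_) (by positivity)
      (by positivity)
    · rw [hE]
      apply Nat.mul_le_mul_right
      omega
    · rw [hE]
  refine le_trans ?_ ((pow_le_pow_left₀ (by positivity) hab E).trans hpow)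
  have h2 : ((t ^ A)⁻¹) ^ E = Real.exp (-(A * E * Real.log t)) := by
    rw [Real.exp_neg, inv_pow]
    congr 1
    rw [← pow_mul, show (A : ℝ) * E * Real.log t = ((A * E : ℕ) : ℝ) * Real.log t by push_cast; ring,
      Real.exp_nat_mul, Real.exp_log (by linarith)]
  rw [h2]
  apply Real.exp_le_exp.2
  have h3 : Real.log t ≤ 2 * Real.log ((m : ℝ) + 2) := by
    have e1 : t ≤ ((m : ℝ) + 2) ^ 2 := by nlinarith
    have e2 := Real.log_le_log (by linarith) e1
    rw [Real.log_pow] at e2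
    exact_mod_cast e2
  have h4 : (E : ℝ) ≤ 2 * (k + 1) * (2 ^ k * ((m : ℝ) + 1) ^ k) := by
    rw [hE]; push_cast
    exact mul_le_mul_of_nonneg_left (exponent k m) (by positivity)
  have h5 : 0 ≤ Real.log ((m : ℝ) + 2) := Real.log_nonneg (by linarith)
  have h6 : 0 ≤ Real.log t := Real.log_nonneg (by linarith)
  have h7 : (A : ℝ) * E * Real.log t ≤
      A * (2 * (k + 1) * (2 ^ k * ((m : ℝ) + 1) ^ k)) * (2 * Real.log ((m : ℝ) + 2)) :=
    mul_le_mul (mul_le_mul_of_nonneg_left h4 (Nat.cast_nonneg _)) h3 h6 (by positivity)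
  have h8 : 0 ≤ ((m : ℝ) + 1) ^ k * Real.log ((m : ℝ) + 2) := by positivity
  nlinarith

end Pool.Agent.K3h91.EA
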