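import Pool.Agent.K3h91.EA.Reg

/-!
# Pinning blocks in the lattice: probability and independence
-/

set_option autoImplicit false

open Finset MeasureTheory ProbabilityTheory

namespace Pool.Agent.K3h91.EA

open Pool.Agent.TH761.EA Pool.Agent.TH761.EB

/-- lattice bonds -/
abbrev LB (k : ℕ) : Type := (Fin (k + 1) → ℤ) × Fin (k + 1)

open Classical in
/-- the bonds starting in the block of radius `m` and columns `z - 1, …, z + ℓ - 1` -/
noncomputable def blkL (k m : ℕ) (z : ℤ) (ℓ : ℕ) : Finset (LB k) :=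
  ((Icc (z - 1) (z + ℓ - 1) ×ˢ (univ : Finset (Bx k m))) ×ˢ (univ : Finset (Fin (k + 1)))).image
    (fun q => (pt q.1.1 q.1.2, q.2))

open Classical in
/-- the ranges of the couplings: weak at the two cuts, strong in between -/
noncomputable def winL {k : ℕ} (a b : ℝ) (z : ℤ) (ℓ : ℕ) (e : LB k) : Set ℝ :=
  if e.2 = 0 ∧ (e.1 0 = z - 1 ∨ e.1 0 = z + ℓ - 1) then Set.Ioo 0 a
  else if e.1 0 = z - 1 then Set.univ else Set.Ioi b

/-- the block is pinning -/
def Pin (k m : ℕ) (a b : ℝ) (z : ℤ) (ℓ : ℕ) : Set (LB k → ℝ) :=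
  {J | ∀ e ∈ blkL k m z ℓ, J e ∈ winL a b z ℓ e}

lemma mem_blkL {k m : ℕ} {z : ℤ} {ℓ : ℕ} {n : ℤ} (h1 : z - 1 ≤ n) (h2 : n ≤ z + ℓ - 1)
    (y : Bx k m) (j : Fin (k + 1)) : (pt n y, j) ∈ blkL k m z ℓ := by
  classical
  unfold blkL
  rw [mem_image]
  refine ⟨((n, y), j), ?_, rfl⟩
  rw [mem_product, mem_product, mem_Icc]
  exact ⟨⟨⟨h1, h2⟩, mem_univ _⟩, mem_univ _⟩

lemma blkL_col {k m : ℕ} {z : ℤ} {ℓ : ℕ} {e : LB k} (he : e ∈ blkL k m z ℓ) :
    z - 1 ≤ e.1 0 ∧ e.1 0 ≤ z + ℓ - 1 := by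
  classical
  unfold blkL at he
  rw [mem_image] at he
  obtain ⟨q, hq, rfl⟩ := he
  rw [mem_product, mem_product, mem_Icc] at hq
  simpa using hq.1.1

lemma winL_meas {k : ℕ} (a b : ℝ) (z : ℤ) (ℓ : ℕ) (e : LB k) :
    MeasurableSet (winL a b z ℓ e) := by
  unfold winL
  split_ifs
  · exact measurableSet_Ioo
  · exact MeasurableSet.univ
  · exact measurableSet_Ioi

lemma Pin_eq (k m : ℕ) (a b : ℝ) (z : ℤ) (ℓ : ℕ) :
    Pin k m a b z ℓ = Set.pi (blkL k m z ℓ : Set (LB k)) (fun e => winL a b z ℓ e) := by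
  ext J
  simp only [Pin, Set.mem_setOf_eq, Set.mem_pi, Finset.mem_coe]

lemma Pin_meas (k m : ℕ) (a b : ℝ) (z : ℤ) (ℓ : ℕ) : MeasurableSet (Pin k m a b z ℓ) := by
  rw [Pin_eq]
  exact MeasurableSet.pi (Finset.countable_toSet _) fun e _ => winL_meas a b z ℓ e

/-- A pinning block pins the column `z` of the ground states. -/
theorem pin_col {k : ℕ} {R : Set (Fin (k + 1) → ℤ)} {m ℓ : ℕ} {J : LB k → ℝ} {a b : ℝ} {z : ℤ}
    (hℓ : 1 ≤ ℓ) (ha : 0 ≤ a) (hab : a ≤ b) (hN : 2 * (2 * (m : ℝ) + 1) * a ≤ ℓ * b)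
    (hC : Cyl R m (z - 1) (z + ℓ)) (hJ : J ∈ Pin k m a b z ℓ)
    {ρ : (Fin (k + 1) → ℤ) → ℝ} (hρ : GS aa bb R J ρ) {v v' : Fin (k + 1) → ℤ}
    (hv : v ∈ R) (hv' : v' ∈ R) (h0 : v 0 = z) (h0' : v' 0 = z) : ρ v = ρ v' := by
  have hg := grOn_reg hρ hC
  have hwin : ∀ n (y : Bx k m) (j : Fin (k + 1)), z - 1 ≤ n → n ≤ z + ℓ - 1 →
      J (pt n y, j) ∈ winL a b z ℓ (pt n y, j) := fun n y j h1 h2 => hJ _ (mem_blkL h1 h2 y j)
  obtain ⟨u, hu⟩ := slab (s := (bs : Bi k m → Bx k m)) (t := bt) (N := 2 * m + 1) (z := z) hℓ hg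
    le_rfl le_rfl (fun f hf => iso f hf) ha hab (by push_cast; exact hN)
    (fun x => by
      have h1 := hwin (z - 1) x 0 le_rfl (by omega)
      unfold winL at h1
      rw [if_pos ⟨rfl, Or.inl rfl⟩] at h1
      exact ⟨h1.1.le, h1.2.le⟩)
    (fun x => by
      have h1 := hwin (z + ℓ - 1) x 0 (by omega) le_rfl
      unfold winL at h1
      rw [if_pos ⟨rfl, Or.inr rfl⟩] at h1
      exact ⟨h1.1.le, h1.2.le⟩)
    (fun n h1 h2 x => by
      have h3 := hwin n x 0 (by omega) (by omega)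
      unfold winL at h3
      rw [if_neg (by simp only [pt_zero]; omega), if_neg (by simp only [pt_zero]; omega)] at h3
      exact (Set.mem_Ioi.1 h3).le)
    (fun n h1 h2 i => by
      have h3 := hwin n i.1.1 i.1.2.succ (by omega) (by omega)
      unfold winL at h3
      rw [if_neg (fun h => Fin.succ_ne_zero _ h.1), if_neg (by simp only [pt_zero]; omega)] at h3
      exact (Set.mem_Ioi.1 h3).le)
  have h1 := hu z le_rfl (by omega) (pr m v)
  have h2 := hu z le_rfl (by omega) (pr m v')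
  have hz : z - 1 ≤ z ∧ z ≤ z + ℓ := by omega
  simp only [hz, and_self, if_true] at h1 h2
  have h4 := hC.pt_pr (v := v) (by omega) (by omega) hv
  have h5 := hC.pt_pr (v := v') (by omega) (by omega) hv'
  rw [h0] at h4
  rw [h0'] at h5
  rw [h4] at h1
  rw [h5] at h2
  rw [h1, h2]

variable (μ : Measure ℝ) [IsProbabilityMeasure μ]

/-- the lower bound for the probability of a pinning block -/
noncomputable def prb (k m : ℕ) (a b : ℝ) (ℓ : ℕ) : ℝ :=
  μ.real (Set.Ioo 0 a) ^ (2 * (2 * m + 1) ^ k) *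
    μ.real (Set.Ioi b) ^ ((ℓ + 1) * (k + 1) * (2 * m + 1) ^ k)

lemma prb_nonneg (k m : ℕ) (a b : ℝ) (ℓ : ℕ) : 0 ≤ prb μ k m a b ℓ := by
  unfold prb
  positivity

lemma Pin_ge (k m : ℕ) (a b : ℝ) (z : ℤ) (ℓ : ℕ) :
    ENNReal.ofReal (prb μ k m a b ℓ) ≤
      (Measure.infinitePi fun _ : LB k => μ) (Pin k m a b z ℓ) := by
  classical
  rw [Pin_eq, Measure.infinitePi_pi _ (fun e _ => winL_meas a b z ℓ e)]
  set α := μ.real (Set.Ioo 0 a) with hα
  set β := μ.real (Set.Ioi b) with hβ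
  have hα0 : 0 ≤ α := measureReal_nonneg
  have hβ0 : 0 ≤ β := measureReal_nonneg
  have hα1 : α ≤ 1 := measureReal_le_one
  have hβ1 : β ≤ 1 := measureReal_le_one
  set C : LB k → Prop := fun e => e.2 = 0 ∧ (e.1 0 = z - 1 ∨ e.1 0 = z + ℓ - 1) with hC
  have h1 : ∏ e ∈ blkL k m z ℓ, (if C e then ENNReal.ofReal α else ENNReal.ofReal β) ≤
      ∏ e ∈ blkL k m z ℓ, μ (winL a b z ℓ e) := by
    refine Finset.prod_le_prod' fun e _ => ?_
    unfold winL
    by_cases hCe : C e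
    · rw [if_pos hCe]
      have hCe' : e.2 = 0 ∧ (e.1 0 = z - 1 ∨ e.1 0 = z + ℓ - 1) := hCe
      rw [if_pos hCe', hα, Measure.real, ENNReal.ofReal_toReal (measure_ne_top _ _)]
    · rw [if_neg hCe]
      have hCe' : ¬ (e.2 = 0 ∧ (e.1 0 = z - 1 ∨ e.1 0 = z + ℓ - 1)) := hCe
      rw [if_neg hCe', hβ, Measure.real, ENNReal.ofReal_toReal (measure_ne_top _ _)]
      split_ifs
      · exact measure_mono (Set.subset_univ _)
      · exact le_rfl
  refine le_trans ?_ h1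
  rw [Finset.prod_ite, Finset.prod_const, Finset.prod_const, ← ENNReal.ofReal_pow hα0,
    ← ENNReal.ofReal_pow hβ0, ← ENNReal.ofReal_mul (by positivity)]
  apply ENNReal.ofReal_le_ofReal
  unfold prb
  rw [← hα, ← hβ]
  have hcut : ((blkL k m z ℓ).filter C).card ≤ 2 * (2 * m + 1) ^ k := by
    have hsub : (blkL k m z ℓ).filter C ⊆
        ((({z - 1, z + (ℓ : ℤ) - 1} : Finset ℤ) ×ˢ (univ : Finset (Bx k m))).image
          fun q => ((pt q.1 q.2, 0) : LB k)) := by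
      intro e he
      rw [mem_filter] at he
      obtain ⟨he1, he2, he3⟩ := he
      unfold blkL at he1
      rw [mem_image] at he1
      obtain ⟨q, hq, rfl⟩ := he1
      simp only [pt_zero] at he2 he3
      rw [mem_image]
      refine ⟨(q.1.1, q.1.2), ?_, ?_⟩
      · rw [mem_product, mem_insert, mem_singleton]
        exact ⟨he3, mem_univ _⟩
      · rw [he2]
    refine (card_le_card hsub).trans (card_image_le.trans ?_)
    rw [card_product, card_univ, card_Bx]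
    exact Nat.mul_le_mul_right _ Finset.card_le_two
  have hall : ((blkL k m z ℓ).filter fun e => ¬ C e).card ≤ (ℓ + 1) * (k + 1) * (2 * m + 1) ^ k := by
    refine (card_le_card (filter_subset _ _)).trans ?_
    unfold blkL
    refine card_image_le.trans ?_
    rw [card_product, card_product, card_univ, card_univ, card_Bx, Fintype.card_fin, Int.card_Icc]
    have : (z + (ℓ : ℤ) - 1 + 1 - (z - 1)).toNat = ℓ + 1 := by omega
    rw [this]
    apply le_of_eq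
    ring
  exact mul_le_mul (pow_le_pow_of_le_one hα0 hα1 hcut) (pow_le_pow_of_le_one hβ0 hβ1 hall)
    (by positivity) (by positivity)

/-- Blocks in disjoint columns are independent. -/
lemma Pin_indep {k : ℕ} (z : ℕ → ℤ) (m ℓ : ℕ → ℕ) (a b : ℕ → ℝ)
    (hz : ∀ i j, i < j → z i + ℓ i < z j) :
    iIndepSet (fun i => Pin k (m i) (a i) (b i) (z i) (ℓ i))
      (Measure.infinitePi fun _ : LB k => μ) := by
  classical
  have hdis : ∀ i j, i ≠ j → ∀ e, e ∈ blkL k (m i) (z i) (ℓ i) → e ∉ blkL k (m j) (z j) (ℓ j) := by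
    intro i j hij e he he'
    have h1 := blkL_col he
    have h2 := blkL_col he'
    rcases lt_or_gt_of_ne hij with h3 | h3
    · have := hz i j h3; omega
    · have := hz j i h3; omega
  rw [iIndepSet_iff_meas_biInter (fun i => Pin_meas _ _ _ _ _ _)]
  intro S
  set W : LB k → Set ℝ := fun e => if h : ∃ i, e ∈ blkL k (m i) (z i) (ℓ i) then
    winL (a h.choose) (b h.choose) (z h.choose) (ℓ h.choose) e else Set.univ with hW
  have hWm : ∀ e, MeasurableSet (W e) := by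
    intro e
    simp only [hW]
    split_ifs
    · exact winL_meas _ _ _ _ _
    · exact MeasurableSet.univ
  have hWe : ∀ i e, e ∈ blkL k (m i) (z i) (ℓ i) → W e = winL (a i) (b i) (z i) (ℓ i) e := by
    intro i e he
    have hex : ∃ i, e ∈ blkL k (m i) (z i) (ℓ i) := ⟨i, he⟩
    have hch : hex.choose = i := by
      by_contra hne
      exact hdis _ _ hne e hex.choose_spec he
    simp only [hW]
    rw [dif_pos hex, hch]
  have hset : ∀ i, Pin k (m i) (a i) (b i) (z i) (ℓ i) =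
      Set.pi (blkL k (m i) (z i) (ℓ i) : Set (LB k)) W := by
    intro i
    rw [Pin_eq]
    ext J
    simp only [Set.mem_pi, Finset.mem_coe]
    refine forall₂_congr fun e he => ?_
    rw [hWe i e he]
  have hinter : (⋂ i ∈ S, Pin k (m i) (a i) (b i) (z i) (ℓ i)) =
      Set.pi ((S.biUnion fun i => blkL k (m i) (z i) (ℓ i) : Finset _) : Set (LB k)) W := by
    ext J
    simp only [Set.mem_iInter, hset, Set.mem_pi, Finset.coe_biUnion, Set.mem_iUnion,
      Finset.mem_coe]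
    constructor
    · rintro h e ⟨i, hi, he⟩
      exact h i hi e he
    · intro h i hi e he
      exact h e ⟨i, hi, he⟩
  rw [hinter, Measure.infinitePi_pi _ (fun e _ => hWm e), Finset.prod_biUnion]
  · refine Finset.prod_congr rfl fun i _ => ?_
    rw [hset, Measure.infinitePi_pi _ (fun e _ => hWm e)]
  · intro i _ j _ hij
    rw [Function.onFun, Finset.disjoint_left]
    intro e he he'
    exact hdis i j hij e he he'

lemma none_le' {k : ℕ} (z : ℕ → ℤ) (m ℓ : ℕ → ℕ) (a b : ℕ → ℝ)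
    (hz : ∀ i j, i < j → z i + ℓ i < z j) (S : Finset ℕ) :
    (Measure.infinitePi fun _ : LB k => μ) (⋂ i ∈ S, (Pin k (m i) (a i) (b i) (z i) (ℓ i))ᶜ) ≤
      ENNReal.ofReal (Real.exp (-∑ i ∈ S, prb μ k (m i) (a i) (b i) (ℓ i))) := by
  have hi := (iIndepSet_iff_iIndep _ _).1 (Pin_indep (k := k) μ z m ℓ a b hz)
  rw [hi.meas_biInter (S := S)
    (s := fun i => (Pin k (m i) (a i) (b i) (z i) (ℓ i))ᶜ)
    (fun j _ => MeasurableSet.compl
      (MeasurableSpace.measurableSet_generateFrom (Set.mem_singleton _)))]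
  have h1 : ∀ i ∈ S, (Measure.infinitePi fun _ : LB k => μ) (Pin k (m i) (a i) (b i) (z i) (ℓ i))ᶜ ≤
      ENNReal.ofReal (Real.exp (-prb μ k (m i) (a i) (b i) (ℓ i))) := by
    intro i _
    rw [prob_compl_eq_one_sub (Pin_meas _ _ _ _ _ _)]
    refine (tsub_le_tsub_left (Pin_ge μ _ _ _ _ _ _) 1).trans ?_
    rw [← ENNReal.ofReal_one, ← ENNReal.ofReal_sub _ (prb_nonneg _ _ _ _ _ _)]
    exact ENNReal.ofReal_le_ofReal (by linarith [Real.add_one_le_exp (-prb μ k (m i) (a i) (b i) (ℓ i))])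
  refine (Finset.prod_le_prod' h1).trans (le_of_eq ?_)
  rw [← ENNReal.ofReal_prod_of_nonneg (fun i _ => (Real.exp_pos _).le), ← Real.exp_sum,
    Finset.sum_neg_distrib]

/-- a family of disjoint blocks behind the column `n0` -/
structure Fam {k : ℕ} (R : Set (Fin (k + 1) → ℤ)) (n0 : ℕ) (S : Finset ℕ) (z : ℕ → ℤ)
    (m ℓ : ℕ → ℕ) (a b : ℕ → ℝ) : Prop where
  sep : ∀ i j, i < j → z i + ℓ i < z j
  far : ∀ i ∈ S, (n0 : ℤ) ≤ z i
  len : ∀ i ∈ S, 1 ≤ ℓ i
  cyl : ∀ i ∈ S, Cyl R (m i) (z i - 1) (z i + ℓ i)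
  pos : ∀ i ∈ S, 0 ≤ a i ∧ a i ≤ b i
  rat : ∀ i ∈ S, 2 * (2 * (m i : ℝ) + 1) * a i ≤ ℓ i * b i

theorem unique_fam {k : ℕ} {R : Set (Fin (k + 1) → ℤ)}
    (hfin : ∀ z : ℤ, (R ∩ {v | v 0 ≤ z}).Finite)
    (hfront : ∀ D : Finset (Fin (k + 1) → ℤ), D.Nonempty → (D : Set (Fin (k + 1) → ℤ)) ⊆ R →
      ∃ e : LB k, (aa e ∈ D ∧ bb e ∈ R ∧ bb e ∉ D) ∨ (bb e ∈ D ∧ aa e ∈ R ∧ aa e ∉ D))
    (hat : ∀ x, μ {x} = 0)
    (H : ∀ n0 T : ℕ, ∃ (S : Finset ℕ) (z : ℕ → ℤ) (m ℓ : ℕ → ℕ) (a b : ℕ → ℝ),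
      Fam R n0 S z m ℓ a b ∧ (T : ℝ) ≤ ∑ i ∈ S, prb μ k (m i) (a i) (b i) (ℓ i)) :
    ∀ᵐ J ∂(Measure.infinitePi fun _ : LB k => μ), ∃ σ, {ρ | GS aa bb R J ρ} = {σ, -σ} := by
  have hpin : ∀ᵐ J ∂(Measure.infinitePi fun _ : LB k => μ), ∀ n0 : ℕ, ∃ z : ℤ, (n0 : ℤ) ≤ z ∧
      (∃ c ∈ R, c 0 = z) ∧ ∀ ρ, GS aa bb R J ρ →
        ∀ v v', v ∈ R → v' ∈ R → v 0 = z → v' 0 = z → ρ v = ρ v' := by
    rw [ae_all_iff]
    intro n0
    rw [ae_iff]
    set Bad := {J : LB k → ℝ | ¬ ∃ z : ℤ, (n0 : ℤ) ≤ z ∧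
      (∃ c ∈ R, c 0 = z) ∧ ∀ ρ, GS aa bb R J ρ →
        ∀ v v', v ∈ R → v' ∈ R → v 0 = z → v' 0 = z → ρ v = ρ v'} with hBad
    have hbound : ∀ T : ℕ, (Measure.infinitePi fun _ : LB k => μ) Bad ≤
        ENNReal.ofReal (Real.exp (-(T : ℝ))) := by
      intro T
      obtain ⟨S, z, m, ℓ, a, b, hF, hT⟩ := H n0 T
      refine le_trans ?_ ((none_le' (k := k) μ z m ℓ a b hF.sep S).trans ?_)
      · refine measure_mono ?_
        intro J hJ
        rw [Set.mem_iInter₂]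
        intro i hi hP
        apply hJ
        have hcyl := hF.cyl i hi
        have hl := hF.len i hi
        refine ⟨z i, hF.far i hi, ⟨cen k (z i), ?_, rfl⟩, fun ρ hρ v v' hv hv' h0 h0' =>
          pin_col hl (hF.pos i hi).1 (hF.pos i hi).2 (hF.rat i hi) hcyl hP hρ hv hv' h0 h0'⟩
        have hc0 : cen k (z i) 0 = z i := rfl
        rw [hcyl _ (by rw [hc0]; omega) (by rw [hc0]; omega)]
        intro j
        simp [cen]
      · apply ENNReal.ofReal_le_ofReal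
        apply Real.exp_le_exp.2
        linarith
    have hlim : Filter.Tendsto (fun t : ℕ => ENNReal.ofReal (Real.exp (-(t : ℝ)))) Filter.atTop
        (nhds 0) := by
      have h2 : Filter.Tendsto (fun t : ℕ => Real.exp (-(t : ℝ))) Filter.atTop (nhds 0) :=
        Real.tendsto_exp_neg_atTop_nhds_zero.comp tendsto_natCast_atTop_atTop
      have h3 := ENNReal.tendsto_ofReal h2
      rwa [ENNReal.ofReal_zero] at h3
    exact le_antisymm (ge_of_tendsto' hlim hbound) bot_le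
  filter_upwards [gen_ae μ hat (LB k), hpin] with J hg hp
  obtain ⟨σ, hσ⟩ := exists_gs' (a := aa) (b := bb) (R := R) horn_fib hfront hg
  refine ⟨σ, ?_⟩
  ext ρ
  constructor
  · intro hρ
    exact unique_reg hfin hσ hρ hp
  · rintro (h | h)
    · rw [h]; exact hσ
    · rw [h]; exact hσ.neg

end Pool.Agent.K3h91.EA
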