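import Pool.Agent.K3h91.EA.Slab

/-!
# Regions with necks: passage to `ℤ × box`, existence, uniqueness from pinned columns
-/

set_option autoImplicit false

open Finset MeasureTheory ProbabilityTheory

namespace Pool.Agent.K3h91.EA

open Pool.Agent.TH761.EA Pool.Agent.TH761.EB

/-- between the columns `P` and `Q` the region `R` is the cylinder of radius `m` -/
def Cyl {k : ℕ} (R : Set (Fin (k + 1) → ℤ)) (m : ℕ) (P Q : ℤ) : Prop :=
  ∀ v : Fin (k + 1) → ℤ, P ≤ v 0 → v 0 ≤ Q → (v ∈ R ↔ ∀ i : Fin k, |v i.succ| ≤ (m : ℤ))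

lemma Cyl.pt_mem {k : ℕ} {R : Set (Fin (k + 1) → ℤ)} {m : ℕ} {P Q : ℤ} (h : Cyl R m P Q) {n : ℤ}
    (h1 : P ≤ n) (h2 : n ≤ Q) (y : Bx k m) : pt n y ∈ R := by
  rw [h (pt n y) (by rw [pt_zero]; exact h1) (by rw [pt_zero]; exact h2)]
  intro i
  rw [pt_succ]
  exact abs_le.2 (Finset.mem_Icc.1 (y i).2)

lemma Cyl.pt_pr {k : ℕ} {R : Set (Fin (k + 1) → ℤ)} {m : ℕ} {P Q : ℤ} (h : Cyl R m P Q)
    {v : Fin (k + 1) → ℤ} (h1 : P ≤ v 0) (h2 : v 0 ≤ Q) (hv : v ∈ R) : pt (v 0) (pr m v) = v :=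
  Pool.Agent.TH761.EB.pt_pr ((h v h1 h2).1 hv)

/-- A ground state of the region is locally optimal on a neck. -/
theorem grOn_reg {k : ℕ} {R : Set (Fin (k + 1) → ℤ)} {m : ℕ}
    {J : (Fin (k + 1) → ℤ) × Fin (k + 1) → ℝ}
    {σ : (Fin (k + 1) → ℤ) → ℝ} (hσ : GS aa bb R J σ) {P Q : ℤ} (hPQ : Cyl R m P Q) :
    GrOn (bs : Bi k m → Bx k m) bt (fun e => J (ph e))
      (fun v => if P ≤ v.1 ∧ v.1 ≤ Q then σ (pt v.1 v.2) else 1) P Q := by
  classical
  set σ' : ℤ × Bx k m → ℝ := fun v => if P ≤ v.1 ∧ v.1 ≤ Q then σ (pt v.1 v.2) else 1 with hσ'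
  have hσ'v : ∀ n y, P ≤ n → n ≤ Q → σ (pt n y) = σ' (n, y) := by
    intro n y h1 h2
    simp [hσ', h1, h2]
  refine ⟨?_, ?_⟩
  · rintro ⟨n, y⟩
    simp only [hσ']
    split_ifs with h
    · exact hσ.1.1 _ (hPQ.pt_mem h.1 h.2 y)
    · exact Or.inl rfl
  · intro p q ρ' hPp hqQ hρ' hb hne
    set ρ : (Fin (k + 1) → ℤ) → ℝ := fun v =>
      if p < v 0 ∧ v 0 < q ∧ v ∈ R then ρ' (v 0, pr m v) else σ v with hρ
    have hρv : ∀ n y, p ≤ n → n ≤ q → ρ (pt n y) = ρ' (n, y) := by
      intro n y h1 h2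
      have h4 : pt n y ∈ R := hPQ.pt_mem (by omega) (by omega) y
      by_cases h5 : p < n ∧ n < q
      · simp only [hρ, pt_zero, h5.1, h5.2, h4, and_self, if_true, pr_pt]
      · have h6 : ¬ (p < n ∧ n < q ∧ pt n y ∈ R) := fun h => h5 ⟨h.1, h.2.1⟩
        simp only [hρ, pt_zero, h6, if_false]
        rw [hb n y (by omega)]
        exact hσ'v n y (by omega) (by omega)
    have hCρ : Cf R ρ := by
      refine ⟨fun v hv => ?_, fun v hv => ?_⟩
      · simp only [hρ]
        split_ifs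
        · exact hρ' _
        · exact hσ.1.1 v hv
      · have : ¬ (p < v 0 ∧ v 0 < q ∧ v ∈ R) := fun h => hv h.2.2
        simp only [hρ, this, if_false]
        exact hσ.1.2 v hv
    have hoff : ∀ v, ρ v ≠ σ v → p < v 0 ∧ v 0 < q ∧ v ∈ R := by
      intro v hv
      by_contra hc
      apply hv
      simp only [hρ, hc, if_false]
    have hfin : {v | ρ v ≠ σ v}.Finite := by
      refine (Finset.finite_toSet ((Ioo p q ×ˢ (Finset.univ : Finset (Bx k m))).image
        (fun v => pt v.1 v.2))).subset ?_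
      intro v hv
      have h1 := hoff v hv
      rw [Finset.mem_coe, Finset.mem_image]
      refine ⟨(v 0, pr m v), ?_, hPQ.pt_pr (by omega) (by omega) h1.2.2⟩
      rw [Finset.mem_product, Finset.mem_Ioo]
      exact ⟨⟨h1.1, h1.2.1⟩, Finset.mem_univ _⟩
    have hρσ : ρ ≠ σ := by
      intro he
      apply hne
      funext ⟨n, y⟩
      by_cases hn : n ≤ p ∨ q ≤ n
      · exact hb n y hn
      · push Not at hn
        rw [← hρv n y hn.1.le hn.2.le, he, hσ'v n y (by omega) (by omega)]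
    have hlt := hσ.2 ρ hCρ hfin hρσ
    have hfs : ∑ᶠ e, J e * (σ (aa e) * σ (bb e) - ρ (aa e) * ρ (bb e)) =
        S bs bt (fun e => J (ph e)) σ' p q - S bs bt (fun e => J (ph e)) ρ' p q := by
      rw [finsum_eq_sum_of_support_subset (s := (Ico p q ×ˢ
        (Finset.univ : Finset (Bx k m ⊕ Bi k m))).image ph)]
      · rw [Finset.sum_image (fun x _ y _ h => ph_inj h)]
        unfold S en
        rw [Finset.sum_product, ← Finset.sum_sub_distrib]
        refine Finset.sum_congr rfl fun n hn => ?_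
        rw [← Finset.sum_sub_distrib]
        refine Finset.sum_congr rfl fun c _ => ?_
        rw [val_ph (p := p) (q := q) (fun n y h1 h2 => hσ'v n y (by omega) (by omega)) (n, c) hn,
          val_ph (p := p) (q := q) (fun n y h1 h2 => hρv n y h1 h2) (n, c) hn]
        ring
      · rintro ⟨v, i⟩ he
        rw [Function.mem_support] at he
        have hR : v ∈ R ∧ v + Pi.single i 1 ∈ R := by
          constructor
          · by_contra hc
            apply he
            simp only [aa, hσ.1.2 v hc, hCρ.2 v hc, zero_mul, sub_self, mul_zero]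
          · by_contra hc
            apply he
            simp only [bb, hσ.1.2 _ hc, hCρ.2 _ hc, mul_zero, sub_self]
        have hor : ρ v ≠ σ v ∨ ρ (v + Pi.single i 1) ≠ σ (v + Pi.single i 1) := by
          by_contra hc
          push Not at hc
          apply he
          simp only [aa, bb, hc.1, hc.2, sub_self, mul_zero]
        rw [Finset.mem_coe, Finset.mem_image]
        revert hR hor he
        refine Fin.cases ?_ (fun j => ?_) i
        · intro he hR hor
          have h1 : (v + (Pi.single 0 1 : Fin (k + 1) → ℤ)) 0 = v 0 + 1 := by simp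
          have h2 : p ≤ v 0 ∧ v 0 < q := by
            rcases hor with h | h
            · have := hoff _ h; omega
            · have := hoff _ h; rw [h1] at this; omega
          refine ⟨(v 0, Sum.inl (pr m v)), ?_, ?_⟩
          · rw [Finset.mem_product, Finset.mem_Ico]
            exact ⟨h2, Finset.mem_univ _⟩
          · simp only [ph]
            rw [hPQ.pt_pr (by omega) (by omega) hR.1]
        · intro he hR hor
          have h1 : (v + (Pi.single j.succ 1 : Fin (k + 1) → ℤ)) 0 = v 0 := by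
            have h0 : (0 : Fin (k + 1)) ≠ j.succ := (Fin.succ_ne_zero _).symm
            simp [h0]
          have h2 : p < v 0 ∧ v 0 < q := by
            rcases hor with h | h
            · have := hoff _ h; exact ⟨this.1, this.2.1⟩
            · have := hoff _ h; rw [h1] at this; exact ⟨this.1, this.2.1⟩
          have h4 := (hPQ _ (by rw [h1]; omega) (by rw [h1]; omega)).1 hR.2 j
          have h5 : (v + (Pi.single j.succ 1 : Fin (k + 1) → ℤ)) j.succ = v j.succ + 1 := by
            simp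
          rw [h5, abs_le] at h4
          have h6 := (hPQ _ (by omega) (by omega)).1 hR.1 j
          rw [abs_le] at h6
          refine ⟨(v 0, Sum.inr ⟨(pr m v, j), ?_⟩), ?_, ?_⟩
          · simp only [pr]
            rw [min_eq_right h6.2, max_eq_right h6.1]
            omega
          · rw [Finset.mem_product, Finset.mem_Ico]
            exact ⟨⟨h2.1.le, h2.2⟩, Finset.mem_univ _⟩
          · simp only [ph]
            rw [hPQ.pt_pr (by omega) (by omega) hR.1]
    rw [hfs] at hlt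
    linarith

/-! ### Existence -/

section exist

variable {X E : Type} {a b : E → X} {R : Set X}

theorem exists_gs' (hfib : ∀ x, {e | a e = x ∨ b e = x}.Finite)
    (hfront : ∀ D : Finset X, D.Nonempty → (D : Set X) ⊆ R →
      ∃ e, (a e ∈ D ∧ b e ∈ R ∧ b e ∉ D) ∨ (b e ∈ D ∧ a e ∈ R ∧ a e ∉ D))
    {J : E → ℝ} (hJ : ∀ T1 T2 : Finset E, Disjoint T1 T2 → (∃ e, e ∈ T1 ∨ e ∈ T2) →
      ∑ e ∈ T1, J e ≠ ∑ e ∈ T2, J e) :
    ∃ σ, GS a b R J σ := by
  classical
  set c : Finset X → X → ℝ := fun A x => if x ∈ R then (if x ∈ A then -1 else 1) else 0 with hc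
  have hcpm : ∀ A, Cf R (c A) := by
    intro A
    refine ⟨fun x hx => ?_, fun x hx => ?_⟩
    · simp only [hc, hx, if_true]; split_ifs <;> simp
    · simp only [hc, hx, if_false]
  set T : Finset X → Finset E := fun Λ => Λ.biUnion fun x => (hfib x).toFinset with hT
  have memT : ∀ Λ e, e ∈ T Λ ↔ a e ∈ Λ ∨ b e ∈ Λ := by
    intro Λ e
    simp only [hT, Finset.mem_biUnion, Set.Finite.mem_toFinset, Set.mem_setOf_eq]
    constructor
    · rintro ⟨x, hx, h | h⟩
      · left; rw [h]; exact hx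
      · right; rw [h]; exact hx
    · rintro (h | h)
      · exact ⟨_, h, Or.inl rfl⟩
      · exact ⟨_, h, Or.inr rfl⟩
  have hmax : ∀ Λ : Finset X, ∃ A : Finset X, A ⊆ Λ ∧ ∀ B : Finset X, B ⊆ Λ →
      ∑ e ∈ T Λ, J e * (c B (a e) * c B (b e)) ≤ ∑ e ∈ T Λ, J e * (c A (a e) * c A (b e)) := by
    intro Λ
    obtain ⟨A, hA1, hA⟩ := Finset.exists_max_image Λ.powerset
      (fun A => ∑ e ∈ T Λ, J e * (c A (a e) * c A (b e))) ⟨∅, by simp⟩
    exact ⟨A, Finset.mem_powerset.1 hA1, fun B hB => hA B (Finset.mem_powerset.2 hB)⟩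
  choose A hAs hA using hmax
  set U : Ultrafilter (Finset X) := Ultrafilter.of Filter.atTop with hU
  set σ : X → ℝ := fun x => if x ∈ R then (if ∀ᶠ Λ in (U : Filter (Finset X)), c (A Λ) x = 1
    then 1 else -1) else 0 with hσ
  have hlim : ∀ x, ∀ᶠ Λ in (U : Filter (Finset X)), c (A Λ) x = σ x := by
    intro x
    by_cases hx : x ∈ R
    · by_cases h : ∀ᶠ Λ in (U : Filter (Finset X)), c (A Λ) x = 1
      · simp only [hσ, h, hx, if_true]
      · simp only [hσ, h, hx, if_false, if_true]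
        rw [← Ultrafilter.eventually_not] at h
        filter_upwards [h] with Λ hΛ
        rcases (hcpm (A Λ)).1 x hx with h1 | h1
        · exact absurd h1 hΛ
        · exact h1
    · simp only [hσ, hx, if_false]
      exact Filter.Eventually.of_forall fun Λ => (hcpm (A Λ)).2 x hx
  have hPσ : Cf R σ := by
    refine ⟨fun x hx => ?_, fun x hx => ?_⟩
    · simp only [hσ, hx, if_true]; split_ifs <;> simp
    · simp only [hσ, hx, if_false]
  refine ⟨σ, hPσ, ?_⟩
  intro ρ hρ hfin hne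
  set D : Finset X := hfin.toFinset with hD
  have memD : ∀ x, x ∈ D ↔ ρ x ≠ σ x := by intro x; simp [hD]
  have hDR : (D : Set X) ⊆ R := by
    intro x hx
    by_contra hcx
    exact (memD x).1 hx (by rw [hρ.2 x hcx, hPσ.2 x hcx])
  have hDne : D.Nonempty := by
    by_contra hcon
    rw [Finset.not_nonempty_iff_eq_empty] at hcon
    apply hne
    funext x
    by_contra hx
    have := (memD x).2 hx
    rw [hcon] at this
    simp at this
  have hoff : ∀ x, x ∉ D → ρ x = σ x := by
    intro x hx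
    by_contra hc2
    exact hx ((memD x).2 hc2)
  -- the energy difference as a finite sum
  have hfs : ∑ᶠ e, J e * (σ (a e) * σ (b e) - ρ (a e) * ρ (b e)) =
      ∑ e ∈ T D, J e * (σ (a e) * σ (b e) - ρ (a e) * ρ (b e)) := by
    apply finsum_eq_sum_of_support_subset
    intro e he
    by_contra hc2
    apply he
    have h1 : ¬ (a e ∈ D ∨ b e ∈ D) := fun h => hc2 ((memT D e).2 h)
    push Not at h1
    simp only [hoff _ h1.1, hoff _ h1.2, sub_self, mul_zero]
  rw [hfs]
  -- nonnegative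
  have hnn : 0 ≤ ∑ e ∈ T D, J e * (σ (a e) * σ (b e) - ρ (a e) * ρ (b e)) := by
    have h1 : ∀ᶠ Λ in (U : Filter (Finset X)), ∀ e ∈ T D,
        c (A Λ) (a e) = σ (a e) ∧ c (A Λ) (b e) = σ (b e) :=
      (Filter.eventually_all_finset _).2 fun e _ => (hlim (a e)).and (hlim (b e))
    have h2 : ∀ᶠ Λ in (U : Filter (Finset X)), D ⊆ Λ :=
      Ultrafilter.of_le (Filter.atTop : Filter (Finset X)) (Filter.eventually_ge_atTop D)
    obtain ⟨Λ, hΛ1, hΛ2⟩ := (h1.and h2).exists
    set B : Finset X := (A Λ \ D) ∪ D.filter (fun x => ρ x = -1) with hB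
    have hBs : B ⊆ Λ := by
      intro x hx
      rw [hB, Finset.mem_union, Finset.mem_sdiff, Finset.mem_filter] at hx
      rcases hx with hx | hx
      · exact hAs Λ hx.1
      · exact hΛ2 hx.1
    have cBD : ∀ x ∈ D, c B x = ρ x := by
      intro x hx
      have hxR : x ∈ R := hDR hx
      simp only [hc, hxR, if_true, hB, Finset.mem_union, Finset.mem_sdiff, Finset.mem_filter, hx,
        not_true_eq_false, and_false, true_and, false_or]
      rcases hρ.1 x hxR with h | h
      · rw [h]; norm_num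
      · rw [h]; simp
    have cBo : ∀ x, x ∉ D → c B x = c (A Λ) x := by
      intro x hx
      simp only [hc, hB, Finset.mem_union, Finset.mem_sdiff, Finset.mem_filter, hx,
        not_false_eq_true, and_true, false_and, or_false]
    have h3 := hA Λ B hBs
    rw [← sub_nonneg, ← Finset.sum_sub_distrib] at h3
    have hsub : T D ⊆ T Λ := by
      intro e he
      rw [memT] at he ⊢
      rcases he with he | he
      · exact Or.inl (hΛ2 he)
      · exact Or.inr (hΛ2 he)
    rw [← Finset.sum_subset hsub (fun e _ he => by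
      rw [memT] at he
      push Not at he
      rw [cBo _ he.1, cBo _ he.2, sub_self])] at h3
    refine h3.trans (le_of_eq ?_)
    refine Finset.sum_congr rfl fun e he => ?_
    have h4 := hΛ1 e he
    have h5 : ∀ x, c (A Λ) x = σ x → c B x = ρ x := by
      intro x hx
      by_cases hxD : x ∈ D
      · exact cBD x hxD
      · rw [cBo x hxD, hx, hoff x hxD]
    rw [h5 _ h4.1, h5 _ h4.2, h4.1, h4.2]
    ring
  refine lt_of_le_of_ne hnn (Ne.symm ?_)
  set T1 := (T D).filter (fun e => σ (a e) * σ (b e) - ρ (a e) * ρ (b e) = 2) with hT1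
  set T2 := (T D).filter (fun e => σ (a e) * σ (b e) - ρ (a e) * ρ (b e) = -2) with hT2
  have hval : ∀ e, σ (a e) * σ (b e) - ρ (a e) * ρ (b e) = 0 ∨
      σ (a e) * σ (b e) - ρ (a e) * ρ (b e) = 2 ∨
      σ (a e) * σ (b e) - ρ (a e) * ρ (b e) = -2 := by
    intro e
    by_cases ha : a e ∈ R
    · by_cases hb : b e ∈ R
      · rcases hPσ.1 _ ha with h1 | h1 <;> rcases hPσ.1 _ hb with h2 | h2 <;>
          rcases hρ.1 _ ha with h3 | h3 <;> rcases hρ.1 _ hb with h4 | h4 <;>
          rw [h1, h2, h3, h4] <;> norm_num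
      · left; rw [hPσ.2 _ hb, hρ.2 _ hb]; ring
    · left; rw [hPσ.2 _ ha, hρ.2 _ ha]; ring
  have hsum : ∑ e ∈ T D, J e * (σ (a e) * σ (b e) - ρ (a e) * ρ (b e)) =
      2 * (∑ e ∈ T1, J e - ∑ e ∈ T2, J e) := by
    rw [hT1, hT2, Finset.sum_filter, Finset.sum_filter, ← Finset.sum_sub_distrib, Finset.mul_sum]
    refine Finset.sum_congr rfl fun e _ => ?_
    rcases hval e with h1 | h1 | h1 <;> rw [h1] <;> norm_num
    · ring
    · ring
  rw [hsum]
  obtain ⟨e, he⟩ := hfront D hDne hDR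
  have hne2 := hJ T1 T2 (by
    rw [Finset.disjoint_left]
    intro e h1 h2
    rw [hT1, Finset.mem_filter] at h1
    rw [hT2, Finset.mem_filter] at h2
    linarith [h1.2, h2.2]) ⟨e, by
    rcases he with ⟨he1, he2, he3⟩ | ⟨he1, he2, he3⟩
    · have h1 : ρ (a e) ≠ σ (a e) := (memD _).1 he1
      have h2 : ρ (b e) = σ (b e) := hoff _ he3
      have haR : a e ∈ R := hDR he1
      rw [hT1, hT2, Finset.mem_filter, Finset.mem_filter, h2]
      have hmem : e ∈ T D := (memT D e).2 (Or.inl he1)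
      simp only [hmem, true_and]
      rcases hPσ.1 _ haR with h3 | h3 <;> rcases hρ.1 _ haR with h4 | h4 <;>
        rcases hPσ.1 _ he2 with h5 | h5 <;> rw [h3, h4, h5] <;>
        first | exact absurd (h4.trans h3.symm) h1 | norm_num
    · have h1 : ρ (b e) ≠ σ (b e) := (memD _).1 he1
      have h2 : ρ (a e) = σ (a e) := hoff _ he3
      have hbR : b e ∈ R := hDR he1
      rw [hT1, hT2, Finset.mem_filter, Finset.mem_filter, h2]
      have hmem : e ∈ T D := (memT D e).2 (Or.inr he1)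
      simp only [hmem, true_and]
      rcases hPσ.1 _ hbR with h3 | h3 <;> rcases hρ.1 _ hbR with h4 | h4 <;>
        rcases hPσ.1 _ he2 with h5 | h5 <;> rw [h3, h4, h5] <;>
        first | exact absurd (h4.trans h3.symm) h1 | norm_num⟩
  intro h0
  apply hne2
  linarith

end exist

/-! ### Uniqueness from pinned columns -/

theorem unique_reg {k : ℕ} {R : Set (Fin (k + 1) → ℤ)} {J : (Fin (k + 1) → ℤ) × Fin (k + 1) → ℝ}
    (hfin : ∀ z : ℤ, (R ∩ {v | v 0 ≤ z}).Finite)
    {σ τ : (Fin (k + 1) → ℤ) → ℝ} (hσ : GS aa bb R J σ) (hτ : GS aa bb R J τ)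
    (hpin : ∀ n0 : ℕ, ∃ z : ℤ, (n0 : ℤ) ≤ z ∧ (∃ c ∈ R, c 0 = z) ∧ ∀ ρ, GS aa bb R J ρ →
      ∀ v v', v ∈ R → v' ∈ R → v 0 = z → v' 0 = z → ρ v = ρ v') :
    τ = σ ∨ τ = -σ := by
  have key : ∀ n0 : ℕ, ∃ z : ℤ, (n0 : ℤ) ≤ z ∧ ∃ r : ℝ, (r = 1 ∨ r = -1) ∧
      ∀ v : Fin (k + 1) → ℤ, v 0 ≤ z → σ v = r * τ v := by
    intro n0
    obtain ⟨z, hz, ⟨c, hc, hc0⟩, hp⟩ := hpin n0
    refine ⟨z, hz, σ c * τ c, ?_, ?_⟩
    · rcases hσ.1.1 _ hc with h1 | h1 <;> rcases hτ.1.1 _ hc with h2 | h2 <;>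
        rw [h1, h2] <;> norm_num
    · have hr : σ c * τ c = 1 ∨ σ c * τ c = -1 := by
        rcases hσ.1.1 _ hc with h1 | h1 <;> rcases hτ.1.1 _ hc with h2 | h2 <;>
          rw [h1, h2] <;> norm_num
      have h := agree hσ hτ hr (Λ := {v | v 0 ≤ z}) (hfin z) ?_ ?_
      · exact h
      · intro e ha hb
        have ha' : aa e 0 ≤ z := ha
        have hb' : ¬ bb e 0 ≤ z := hb
        have h0 : aa e 0 = z := by rcases bb_zero e with h1 | h1 <;> omega
        by_cases hR : aa e ∈ R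
        · rw [hp σ hσ _ _ hR hc h0 hc0, hp τ hτ _ _ hR hc h0 hc0]
          rcases hτ.1.1 _ hc with h2 | h2 <;> rw [h2] <;> ring
        · rw [hσ.1.2 _ hR, hτ.1.2 _ hR, mul_zero]
      · intro e hb ha
        exfalso
        have ha' : ¬ aa e 0 ≤ z := ha
        have hb' : bb e 0 ≤ z := hb
        rcases bb_zero e with h1 | h1 <;> omega
  obtain ⟨z0, -, ⟨c, hc, -⟩, -⟩ := hpin 0
  have hall : ∀ v, σ v = (σ c * τ c) * τ v := by
    intro v
    obtain ⟨z, hz, r, hr, h⟩ := key (max (v 0) (c 0)).toNat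
    have h1 := h v (by have := le_max_left (v 0) (c 0); omega)
    have h2 := h c (by have := le_max_right (v 0) (c 0); omega)
    rw [h1, h2]
    rcases hτ.1.1 _ hc with h3 | h3 <;> rw [h3] <;> ring
  rcases hσ.1.1 _ hc with h1 | h1 <;> rcases hτ.1.1 _ hc with h2 | h2
  · left; funext v; rw [hall v, h1, h2]; ring
  · right; funext v; rw [Pi.neg_apply, hall v, h1, h2]; ring
  · right; funext v; rw [Pi.neg_apply, hall v, h1, h2]; ring
  · left; funext v; rw [hall v, h1, h2]; ring

end Pool.Agent.K3h91.EA
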