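import Pool.Agent.K3h91.EA.Iso

/-!
# Slabs between two weak cuts are uniform in every ground state
-/

set_option autoImplicit false

open Finset

namespace Pool.Agent.K3h91.EA

open Pool.Agent.TH761.EA Pool.Agent.TH761.EB

variable {V I : Type} [Fintype V] [Fintype I] {s t : I → V}

/-- number of unsatisfied bonds between two columns -/
noncomputable def vnn {V : Type} [Fintype V] (σ : ℤ × V → ℝ) (n : ℤ) : ℕ :=
  (univ.filter fun x => σ (n, x) ≠ σ (n + 1, x)).card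

lemma cnt_succ_le (σ : ℤ × V → ℝ) (u : ℝ) (n : ℤ) :
    cnt (fun x => σ (n + 1, x)) u ≤ cnt (fun x => σ (n, x)) u + vnn σ n := by
  classical
  unfold cnt vnn
  refine (card_le_card ?_).trans (card_union_le _ _)
  intro x hx
  rw [mem_union]
  simp only [mem_filter, mem_univ, true_and] at hx ⊢
  by_cases h : σ (n, x) = u
  · right
    rw [h]
    exact fun h' => hx h'.symm
  · left; exact h

lemma cnt_le_succ (σ : ℤ × V → ℝ) (u : ℝ) (n : ℤ) :
    cnt (fun x => σ (n, x)) u ≤ cnt (fun x => σ (n + 1, x)) u + vnn σ n := by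
  classical
  unfold cnt vnn
  refine (card_le_card ?_).trans (card_union_le _ _)
  intro x hx
  rw [mem_union]
  simp only [mem_filter, mem_univ, true_and] at hx ⊢
  by_cases h : σ (n + 1, x) = u
  · right
    rw [h]
    exact hx
  · left; exact h

lemma cnt_right (σ : ℤ × V → ℝ) (u : ℝ) (p : ℤ) (j : ℕ) :
    cnt (fun x => σ (p + j, x)) u ≤ cnt (fun x => σ (p, x)) u + ∑ n ∈ Ico p (p + j), vnn σ n := by
  induction j with
  | zero => simp
  | succ j ih =>
    have h1 := cnt_succ_le σ u (p + j)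
    have h2 : Ico p (p + ((j + 1 : ℕ) : ℤ)) = insert (p + (j : ℤ)) (Ico p (p + j)) := by
      ext n
      rw [mem_insert, mem_Ico, mem_Ico]
      push_cast
      omega
    have h3 : p + ((j + 1 : ℕ) : ℤ) = p + j + 1 := by push_cast; ring
    rw [h2, sum_insert (by simp), h3]
    omega

lemma cnt_left (σ : ℤ × V → ℝ) (u : ℝ) (p : ℤ) (j : ℕ) :
    cnt (fun x => σ (p, x)) u ≤ cnt (fun x => σ (p + j, x)) u + ∑ n ∈ Ico p (p + j), vnn σ n := by
  induction j with
  | zero => simp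
  | succ j ih =>
    have h1 := cnt_le_succ σ u (p + j)
    have h2 : Ico p (p + ((j + 1 : ℕ) : ℤ)) = insert (p + (j : ℤ)) (Ico p (p + j)) := by
      ext n
      rw [mem_insert, mem_Ico, mem_Ico]
      push_cast
      omega
    have h3 : p + ((j + 1 : ℕ) : ℤ) = p + j + 1 := by push_cast; ring
    rw [h2, sum_insert (by simp), h3]
    omega

/-- The combinatorial inequality. -/
lemma faces {N ℓ : ℕ} (hℓ : 1 ≤ ℓ)
    (hiso : ∀ f : V → ℝ, (∀ x, f x = 1 ∨ f x = -1) →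
      cnt f 1 ≤ N * dis s t f ∨ cnt f (-1) ≤ N * dis s t f)
    {a b : ℝ} (ha : 0 ≤ a) (hab : a ≤ b) (hN : 2 * N * a ≤ ℓ * b)
    {σ : ℤ × V → ℝ} (hσ : Pm σ) (z : ℤ) :
    ∃ u : ℝ, (u = 1 ∨ u = -1) ∧
      a * (cnt (fun x => σ (z, x)) u + cnt (fun x => σ (z + ℓ - 1, x)) u) ≤
        b * ((∑ n ∈ Ico z (z + ℓ), dis s t (fun x => σ (n, x)) : ℕ) +
          (∑ n ∈ Ico z (z + ℓ - 1), vnn σ n : ℕ)) := by
  classical
  set h : ℤ → ℕ := fun n => min (cnt (fun x => σ (n, x)) 1) (cnt (fun x => σ (n, x)) (-1)) with hh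
  have hne : (Ico z (z + ℓ)).Nonempty := ⟨z, mem_Ico.2 ⟨le_rfl, by omega⟩⟩
  obtain ⟨n0, hn0, hmin⟩ := exists_min_image _ h hne
  rw [mem_Ico] at hn0
  have hu : ∃ u : ℝ, (u = 1 ∨ u = -1) ∧ cnt (fun x => σ (n0, x)) u = h n0 := by
    rcases min_choice (cnt (fun x => σ (n0, x)) 1) (cnt (fun x => σ (n0, x)) (-1)) with h1 | h1
    · exact ⟨1, Or.inl rfl, h1.symm⟩
    · exact ⟨-1, Or.inr rfl, h1.symm⟩
  obtain ⟨u, hu1, hu2⟩ := hu
  refine ⟨u, hu1, ?_⟩
  -- the sum of the minority counts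
  have hD : ℓ * h n0 ≤ N * ∑ n ∈ Ico z (z + ℓ), dis s t (fun x => σ (n, x)) := by
    have h1 : ∀ n ∈ Ico z (z + ℓ), h n0 ≤ N * dis s t (fun x => σ (n, x)) := by
      intro n hn
      refine (hmin n hn).trans ?_
      rcases hiso (fun x => σ (n, x)) (fun x => hσ _) with h2 | h2
      · exact (min_le_left _ _).trans h2
      · exact (min_le_right _ _).trans h2
    have h3 := Finset.sum_le_sum h1
    rw [Finset.sum_const, Int.card_Ico, ← Finset.mul_sum, smul_eq_mul] at h3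
    have h4 : (z + (ℓ : ℤ) - z).toNat = ℓ := by omega
    rw [h4] at h3
    exact h3
  obtain ⟨j, hj⟩ : ∃ j : ℕ, n0 = z + j := ⟨(n0 - z).toNat, by omega⟩
  obtain ⟨j', hj'⟩ : ∃ j' : ℕ, z + ℓ - 1 = n0 + j' := ⟨(z + ℓ - 1 - n0).toNat, by omega⟩
  have h5 := cnt_left σ u z j
  have h6 := cnt_right σ u n0 j'
  rw [← hj] at h5
  rw [← hj'] at h6
  rw [hu2] at h5 h6
  have h7 : ∑ n ∈ Ico z (z + ℓ - 1), vnn σ n =
      ∑ n ∈ Ico z n0, vnn σ n + ∑ n ∈ Ico n0 (z + ℓ - 1), vnn σ n := by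
    rw [← Finset.Ico_union_Ico_eq_Ico (b := n0) (by omega) (by omega),
      Finset.sum_union (Finset.Ico_disjoint_Ico_consecutive _ _ _)]
  set D := ∑ n ∈ Ico z (z + ℓ), dis s t (fun x => σ (n, x)) with hDd
  set Vv := ∑ n ∈ Ico z (z + ℓ - 1), vnn σ n with hV
  have h8 : cnt (fun x => σ (z, x)) u + cnt (fun x => σ (z + ℓ - 1, x)) u ≤ 2 * h n0 + Vv := by
    omega
  have h8' : ((cnt (fun x => σ (z, x)) u : ℕ) : ℝ) + cnt (fun x => σ (z + ℓ - 1, x)) u ≤
      2 * h n0 + Vv := by exact_mod_cast h8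
  have hD' : (ℓ : ℝ) * h n0 ≤ N * D := by exact_mod_cast hD
  have hℓ' : (0 : ℝ) < ℓ := by
    have : (1 : ℝ) ≤ ℓ := by exact_mod_cast hℓ
    linarith
  have hV0 : (0 : ℝ) ≤ Vv := Nat.cast_nonneg _
  have hD0 : (0 : ℝ) ≤ D := Nat.cast_nonneg _
  have h9 : 2 * a * h n0 ≤ b * D := by
    have e1 : (ℓ : ℝ) * (2 * a * h n0) ≤ ℓ * (b * D) := by
      calc (ℓ : ℝ) * (2 * a * h n0) = 2 * a * (ℓ * h n0) := by ring
        _ ≤ 2 * a * (N * D) := mul_le_mul_of_nonneg_left hD' (by linarith)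
        _ = (2 * N * a) * D := by ring
        _ ≤ (ℓ * b) * D := mul_le_mul_of_nonneg_right hN hD0
        _ = ℓ * (b * D) := by ring
    exact le_of_mul_le_mul_left e1 hℓ'
  calc a * ((cnt (fun x => σ (z, x)) u : ℕ) + (cnt (fun x => σ (z + ℓ - 1, x)) u : ℕ) : ℝ)
      ≤ a * (2 * h n0 + Vv) := mul_le_mul_of_nonneg_left h8' ha
    _ = 2 * a * h n0 + a * Vv := by ring
    _ ≤ b * D + b * Vv := add_le_add h9 (mul_le_mul_of_nonneg_right hab hV0)
    _ = b * (D + Vv) := by ring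

lemma ind_sum {A : Type} [Fintype A] (P : A → Prop) [DecidablePred P] (c : ℝ) :
    ∑ x, (if P x then c else 0) = c * (univ.filter P).card := by
  rw [← Finset.sum_filter, Finset.sum_const, nsmul_eq_mul, mul_comm]

/-- A slab of `ℓ` columns between two weak cuts is uniform. -/
theorem slab {J : ℤ × (V ⊕ I) → ℝ} {σ : ℤ × V → ℝ} {P Q z : ℤ} {N ℓ : ℕ} (hℓ : 1 ≤ ℓ)
    (h : GrOn s t J σ P Q) (hP : P ≤ z - 1) (hQ : z + ℓ ≤ Q)
    (hiso : ∀ f : V → ℝ, (∀ x, f x = 1 ∨ f x = -1) →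
      cnt f 1 ≤ N * dis s t f ∨ cnt f (-1) ≤ N * dis s t f)
    {a b : ℝ} (ha : 0 ≤ a) (hab : a ≤ b) (hN : 2 * N * a ≤ ℓ * b)
    (hc : ∀ x, 0 ≤ J (z - 1, Sum.inl x) ∧ J (z - 1, Sum.inl x) ≤ a)
    (hc' : ∀ x, 0 ≤ J (z + ℓ - 1, Sum.inl x) ∧ J (z + ℓ - 1, Sum.inl x) ≤ a)
    (hi : ∀ n, z ≤ n → n < z + ℓ - 1 → ∀ x, b ≤ J (n, Sum.inl x))
    (hi' : ∀ n, z ≤ n → n < z + ℓ → ∀ i, b ≤ J (n, Sum.inr i)) :
    ∃ u : ℝ, ∀ n, z ≤ n → n < z + ℓ → ∀ x, σ (n, x) = u := by
  classical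
  obtain ⟨u, hu, hfac⟩ := faces hℓ hiso ha hab hN h.1 z
  have huu : u * u = 1 := by rcases hu with h1 | h1 <;> rw [h1] <;> norm_num
  refine ⟨u, ?_⟩
  set ρ : ℤ × V → ℝ := fun v => if z ≤ v.1 ∧ v.1 < z + ℓ then u else σ v with hρ
  have hρin : ∀ n x, z ≤ n → n < z + ℓ → ρ (n, x) = u := by
    intro n x h1 h2; simp [hρ, h1, h2]
  have hρout : ∀ n x, (n < z ∨ z + ℓ ≤ n) → ρ (n, x) = σ (n, x) := by
    intro n x h1
    have : ¬ (z ≤ n ∧ n < z + ℓ) := by omega
    simp [hρ, this]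
  have hPρ : Pm ρ := by
    rintro ⟨n, x⟩
    by_cases h1 : z ≤ n ∧ n < z + ℓ
    · rw [hρin n x h1.1 h1.2]; exact hu
    · rw [hρout n x (by omega)]; exact h.1 _
  by_contra hcon
  have hne : ρ ≠ σ := by
    intro he
    apply hcon
    intro n h1 h2 x
    rw [← he]
    exact hρin n x h1 h2
  have hlt := h.2 (z - 1) (z + ℓ) ρ hP hQ hPρ (fun n x hn => hρout n x (by omega)) hne
  -- columns
  have hb0 : 0 ≤ b := ha.trans hab
  -- left cut
  have hL : en s t J σ (z - 1) - 2 * a * cnt (fun x => σ (z, x)) u ≤ en s t J ρ (z - 1) := by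
    unfold en
    rw [Fintype.sum_sum_type, Fintype.sum_sum_type]
    have h1 : ∑ i, J (z - 1, Sum.inr i) * bd s t ρ (z - 1, Sum.inr i) =
        ∑ i, J (z - 1, Sum.inr i) * bd s t σ (z - 1, Sum.inr i) := by
      refine Finset.sum_congr rfl fun i _ => ?_
      simp only [bd]
      rw [hρout _ _ (by omega), hρout _ _ (by omega)]
    have h2 : ∑ x, J (z - 1, Sum.inl x) * bd s t σ (z - 1, Sum.inl x) -
        2 * a * cnt (fun x => σ (z, x)) u ≤
        ∑ x, J (z - 1, Sum.inl x) * bd s t ρ (z - 1, Sum.inl x) := by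
      unfold cnt
      rw [← ind_sum, ← Finset.sum_sub_distrib]
      refine Finset.sum_le_sum fun x _ => ?_
      have e0 : z - 1 + 1 = z := by ring
      simp only [bd, e0]
      rw [hρout _ _ (by omega), hρin z x le_rfl (by omega)]
      have hJ := hc x
      by_cases hx : σ (z, x) = u
      · rw [if_neg (not_not.2 hx), hx]; simp
      · rw [if_pos hx]
        have hprod : σ (z - 1, x) * σ (z, x) ≤ 1 := by
          rcases h.1 (z - 1, x) with h3 | h3 <;> rcases h.1 (z, x) with h4 | h4 <;>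
            rw [h3, h4] <;> norm_num
        have hprod' : -1 ≤ σ (z - 1, x) * u := by
          rcases h.1 (z - 1, x) with h3 | h3 <;> rcases hu with h4 | h4 <;>
            rw [h3, h4] <;> norm_num
        nlinarith [mul_le_mul_of_nonneg_left hprod hJ.1, mul_le_mul_of_nonneg_left hprod' hJ.1]
    rw [h1]
    linarith
  -- right cut
  have hintra : ∀ n, z ≤ n → n < z + ℓ →
      ∑ i, J (n, Sum.inr i) * bd s t σ (n, Sum.inr i) + 2 * b * dis s t (fun x => σ (n, x)) ≤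
        ∑ i, J (n, Sum.inr i) * bd s t ρ (n, Sum.inr i) := by
    intro n h1 h2
    unfold dis
    rw [← ind_sum, ← Finset.sum_add_distrib]
    refine Finset.sum_le_sum fun i _ => ?_
    simp only [bd]
    rw [hρin n _ h1 h2, hρin n _ h1 h2, huu]
    have hJ := hi' n h1 h2 i
    by_cases hx : σ (n, s i) = σ (n, t i)
    · rw [if_neg (by rw [hx]; simp), hx]
      rcases h.1 (n, t i) with h4 | h4 <;> rw [h4] <;> norm_num
    · rw [if_pos hx]
      rcases h.1 (n, s i) with h3 | h3 <;> rcases h.1 (n, t i) with h4 | h4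
      · exact absurd (h3.trans h4.symm) hx
      · rw [h3, h4]; linarith
      · rw [h3, h4]; linarith
      · exact absurd (h3.trans h4.symm) hx
  have hR : en s t J σ (z + ℓ - 1) - 2 * a * cnt (fun x => σ (z + ℓ - 1, x)) u +
      2 * b * dis s t (fun x => σ (z + ℓ - 1, x)) ≤ en s t J ρ (z + ℓ - 1) := by
    unfold en
    rw [Fintype.sum_sum_type, Fintype.sum_sum_type]
    have h1 := hintra (z + ℓ - 1) (by omega) (by omega)
    have h2 : ∑ x, J (z + ℓ - 1, Sum.inl x) * bd s t σ (z + ℓ - 1, Sum.inl x) -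
        2 * a * cnt (fun x => σ (z + ℓ - 1, x)) u ≤
        ∑ x, J (z + ℓ - 1, Sum.inl x) * bd s t ρ (z + ℓ - 1, Sum.inl x) := by
      unfold cnt
      rw [← ind_sum, ← Finset.sum_sub_distrib]
      refine Finset.sum_le_sum fun x _ => ?_
      simp only [bd]
      rw [hρout (z + ℓ - 1 + 1) _ (by omega), hρin (z + ℓ - 1) x (by omega) (by omega)]
      have hJ := hc' x
      by_cases hx : σ (z + ℓ - 1, x) = u
      · rw [if_neg (not_not.2 hx), hx]; simp
      · rw [if_pos hx]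
        have hprod : σ (z + ℓ - 1, x) * σ (z + ℓ - 1 + 1, x) ≤ 1 := by
          rcases h.1 (z + ℓ - 1, x) with h3 | h3 <;>
            rcases h.1 (z + ℓ - 1 + 1, x) with h4 | h4 <;> rw [h3, h4] <;> norm_num
        have hprod' : -1 ≤ u * σ (z + ℓ - 1 + 1, x) := by
          rcases h.1 (z + ℓ - 1 + 1, x) with h3 | h3 <;> rcases hu with h4 | h4 <;>
            rw [h3, h4] <;> norm_num
        nlinarith [mul_le_mul_of_nonneg_left hprod hJ.1, mul_le_mul_of_nonneg_left hprod' hJ.1]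
    linarith
  -- inside
  have hM : ∀ n ∈ Ico z (z + ℓ - 1), en s t J σ n +
      (2 * b * dis s t (fun x => σ (n, x)) + 2 * b * vnn σ n) ≤ en s t J ρ n := by
    intro n hn
    rw [mem_Ico] at hn
    unfold en
    rw [Fintype.sum_sum_type, Fintype.sum_sum_type]
    have h1 := hintra n hn.1 (by omega)
    have h2 : ∑ x, J (n, Sum.inl x) * bd s t σ (n, Sum.inl x) + 2 * b * vnn σ n ≤
        ∑ x, J (n, Sum.inl x) * bd s t ρ (n, Sum.inl x) := by
      unfold vnn
      rw [← ind_sum, ← Finset.sum_add_distrib]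
      refine Finset.sum_le_sum fun x _ => ?_
      simp only [bd]
      rw [hρin n _ hn.1 (by omega), hρin (n + 1) _ (by omega) (by omega), huu]
      have hJ := hi n hn.1 hn.2 x
      by_cases hx : σ (n, x) = σ (n + 1, x)
      · rw [if_neg (by rw [hx]; simp), hx]
        rcases h.1 (n + 1, x) with h4 | h4 <;> rw [h4] <;> norm_num
      · rw [if_pos hx]
        rcases h.1 (n, x) with h3 | h3 <;> rcases h.1 (n + 1, x) with h4 | h4
        · exact absurd (h3.trans h4.symm) hx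
        · rw [h3, h4]; linarith
        · rw [h3, h4]; linarith
        · exact absurd (h3.trans h4.symm) hx
    linarith
  have hMs := Finset.sum_le_sum hM
  rw [Finset.sum_add_distrib, Finset.sum_add_distrib, ← Finset.mul_sum, ← Finset.mul_sum] at hMs
  -- total
  have hsplit : ∀ τ : ℤ × V → ℝ, S s t J τ (z - 1) (z + ℓ) =
      en s t J τ (z - 1) + ∑ n ∈ Ico z (z + ℓ - 1), en s t J τ n + en s t J τ (z + ℓ - 1) := by
    intro τ
    rw [S_add τ (q := z) (by omega) (by omega), S_add τ (p := z) (q := z + ℓ - 1) (by omega) (by omega)]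
    have e1 : S s t J τ (z - 1) z = en s t J τ (z - 1) := by
      unfold S
      have : Ico (z - 1) z = {z - 1} := by ext n; rw [mem_Ico, mem_singleton]; omega
      rw [this, sum_singleton]
    have e2 : S s t J τ (z + ℓ - 1) (z + ℓ) = en s t J τ (z + ℓ - 1) := by
      unfold S
      have : Ico (z + (ℓ : ℤ) - 1) (z + ℓ) = {z + ℓ - 1} := by
        ext n; rw [mem_Ico, mem_singleton]; omega
      rw [this, sum_singleton]
    rw [e1, e2]
    unfold S
    ring
  rw [hsplit, hsplit] at hlt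
  have hDsum : ∑ n ∈ Ico z (z + ℓ), dis s t (fun x => σ (n, x)) =
      ∑ n ∈ Ico z (z + ℓ - 1), dis s t (fun x => σ (n, x)) +
        dis s t (fun x => σ (z + ℓ - 1, x)) := by
    rw [← Finset.Ico_union_Ico_eq_Ico (b := z + ℓ - 1) (by omega) (by omega),
      Finset.sum_union (Finset.Ico_disjoint_Ico_consecutive _ _ _)]
    congr 1
    have : Ico (z + (ℓ : ℤ) - 1) (z + ℓ) = {z + ℓ - 1} := by
      ext n; rw [mem_Ico, mem_singleton]; omega
    rw [this, sum_singleton]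
  rw [hDsum] at hfac
  push_cast at hfac hMs
  linarith

end Pool.Agent.K3h91.EA
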